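import Pool.Agent.Work.MP_7794fd_co.X.I_Good
import Pool.Agent.Work.MP_7794fd_co.X.T8.C01
import Pool.Agent.Work.MP_7794fd_co.X.T8.C02
import Pool.Agent.Work.MP_7794fd_co.X.T8.C03
import Pool.Agent.Work.MP_7794fd_co.X.T8.C04
import Pool.Agent.Work.MP_7794fd_co.X.T8.C05
import Pool.Agent.Work.MP_7794fd_co.X.T8.C06
import Pool.Agent.Work.MP_7794fd_co.X.T8.C07
import Pool.Agent.Work.MP_7794fd_co.X.T8.C08
import Pool.Agent.Work.MP_7794fd_co.X.T8.C09
import Pool.Agent.Work.MP_7794fd_co.X.T8.C10
import Pool.Agent.Work.MP_7794fd_co.X.T8.C11
import Pool.Agent.Work.MP_7794fd_co.X.T8.C12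
import Pool.Agent.Work.MP_7794fd_co.X.T8.C13
import Pool.Agent.Work.MP_7794fd_co.X.T8.C14
import Pool.Agent.Work.MP_7794fd_co.X.T8.C15
import Pool.Agent.Work.MP_7794fd_co.X.T8.C16
import Pool.Agent.Work.MP_7794fd_co.X.T8.C17
import Pool.Agent.Work.MP_7794fd_co.X.T8.C18
import Pool.Agent.Work.MP_7794fd_co.X.T8.C19
import Pool.Agent.Work.MP_7794fd_co.X.T8.C20
import Pool.Agent.Work.MP_7794fd_co.X.T8.C21
import Pool.Agent.Work.MP_7794fd_co.X.T8.C22
import Pool.Agent.Work.MP_7794fd_co.X.T8.C23
import Pool.Agent.Work.MP_7794fd_co.X.T8.C24
import Pool.Agent.Work.MP_7794fd_co.X.T8.C25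
import Pool.Agent.Work.MP_7794fd_co.X.T8.C26
import Pool.Agent.Work.MP_7794fd_co.X.T8.C27
import Pool.Agent.Work.MP_7794fd_co.X.T8.C28
import Pool.Agent.Work.MP_7794fd_co.X.T8.C29
import Pool.Agent.Work.MP_7794fd_co.X.T8.C30
import Pool.Agent.Work.MP_7794fd_co.X.T8.C31
import Pool.Agent.Work.MP_7794fd_co.X.T8.C32

/-! Block X: the search tree for words with at most 8 letters. -/

set_option autoImplicit false
set_option maxRecDepth 100000

namespace Pool.Agent.Work.MP_7794fd_co.X.T8

theorem g3_970 : GoodC 8 3 125356617864 :=
  goodC (by decide) (by decide) (by decide +kernel) (by decide +kernel) c3_970 nilC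

theorem g3_969 : GoodC 8 3 13687468168 :=
  goodC (by decide) (by decide) (by decide +kernel) (by decide +kernel) c3_969 (consC g3_970 nilC)

theorem g3_968 : GoodC 8 3 124282876040 :=
  goodC (by decide) (by decide) (by decide +kernel) (by decide +kernel) c3_968 nilC

theorem g3_967 : GoodC 8 3 12613726344 :=
  goodC (by decide) (by decide) (by decide +kernel) (by decide +kernel) c3_967 (consC g3_968 nilC)

theorem g3_966 : GoodC 8 3 11539984520 :=
  goodC (by decide) (by decide) (by decide +kernel) (by decide +kernel) c3_966 nilC

theorem g3_965 : GoodC 8 3 10466242696 :=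
  goodC (by decide) (by decide) (by decide +kernel) (by decide +kernel) c3_965 nilC

theorem g3_964 : GoodC 8 3 1876308104 :=
  goodC (by decide) (by decide) (by decide +kernel) (by decide +kernel) c3_964 (consC g3_965 (consC g3_966 (consC g3_967 (consC g3_969 nilC))))

theorem g3_963 : GoodC 8 3 118779949192 :=
  goodC (by decide) (by decide) (by decide +kernel) (by decide +kernel) c3_963 nilC

theorem g3_962 : GoodC 8 3 15700734088 :=
  goodC (by decide) (by decide) (by decide +kernel) (by decide +kernel) c3_962 (consC g3_963 nilC)

theorem g3_961 : GoodC 8 3 115558723720 :=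
  goodC (by decide) (by decide) (by decide +kernel) (by decide +kernel) c3_961 nilC

theorem g3_960 : GoodC 8 3 11405766792 :=
  goodC (by decide) (by decide) (by decide +kernel) (by decide +kernel) c3_960 nilC

theorem g3_959 : GoodC 8 3 10332024968 :=
  goodC (by decide) (by decide) (by decide +kernel) (by decide +kernel) c3_959 nilC

theorem g3_958 : GoodC 8 3 9258283144 :=
  goodC (by decide) (by decide) (by decide +kernel) (by decide +kernel) c3_958 nilC

theorem g3_957 : GoodC 8 3 1742090376 :=
  goodC (by decide) (by decide) (by decide +kernel) (by decide +kernel) c3_957 (consC g3_958 (consC g3_959 (consC g3_960 (consC g3_961 (consC g3_962 nilC)))))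

theorem g3_956 : GoodC 8 3 118645731464 :=
  goodC (by decide) (by decide) (by decide +kernel) (by decide +kernel) c3_956 nilC

theorem g3_955 : GoodC 8 3 15566516360 :=
  goodC (by decide) (by decide) (by decide +kernel) (by decide +kernel) c3_955 (consC g3_956 nilC)

theorem g3_954 : GoodC 8 3 14492774536 :=
  goodC (by decide) (by decide) (by decide +kernel) (by decide +kernel) c3_954 nilC

theorem g3_953 : GoodC 8 3 11271549064 :=
  goodC (by decide) (by decide) (by decide +kernel) (by decide +kernel) c3_953 nilC

theorem g3_952 : GoodC 8 3 10197807240 :=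
  goodC (by decide) (by decide) (by decide +kernel) (by decide +kernel) c3_952 nilC

theorem g3_951 : GoodC 8 3 1607872648 :=
  goodC (by decide) (by decide) (by decide +kernel) (by decide +kernel) c3_951 (consC g3_952 (consC g3_953 (consC g3_954 (consC g3_955 nilC))))

theorem g3_950 : GoodC 8 3 118511513736 :=
  goodC (by decide) (by decide) (by decide +kernel) (by decide +kernel) c3_950 nilC

theorem g3_949 : GoodC 8 3 15432298632 :=
  goodC (by decide) (by decide) (by decide +kernel) (by decide +kernel) c3_949 (consC g3_950 nilC)

theorem g3_948 : GoodC 8 3 13284814984 :=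
  goodC (by decide) (by decide) (by decide +kernel) (by decide +kernel) c3_948 nilC

theorem g3_947 : GoodC 8 3 12211073160 :=
  goodC (by decide) (by decide) (by decide +kernel) (by decide +kernel) c3_947 nilC

theorem g3_946 : GoodC 8 3 1473654920 :=
  goodC (by decide) (by decide) (by decide +kernel) (by decide +kernel) c3_946 (consC g3_947 (consC g3_948 (consC g3_949 nilC)))

theorem g3_945 : GoodC 8 3 15298080904 :=
  goodC (by decide) (by decide) (by decide +kernel) (by decide +kernel) c3_945 nilC

theorem g3_944 : GoodC 8 3 13150597256 :=
  goodC (by decide) (by decide) (by decide +kernel) (by decide +kernel) c3_944 nilC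

theorem g3_943 : GoodC 8 3 8855629960 :=
  goodC (by decide) (by decide) (by decide +kernel) (by decide +kernel) c3_943 nilC

theorem g3_942 : GoodC 8 3 15163863176 :=
  goodC (by decide) (by decide) (by decide +kernel) (by decide +kernel) c3_942 nilC

theorem g3_941 : GoodC 8 3 14090121352 :=
  goodC (by decide) (by decide) (by decide +kernel) (by decide +kernel) c3_941 nilC

theorem g3_940 : GoodC 8 3 13016379528 :=
  goodC (by decide) (by decide) (by decide +kernel) (by decide +kernel) c3_940 nilC

theorem g3_939 : GoodC 8 3 1205219464 :=
  goodC (by decide) (by decide) (by decide +kernel) (by decide +kernel) c3_939 (consC g3_940 (consC g3_941 (consC g3_942 nilC)))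

theorem g3_938 : GoodC 8 3 265695368 :=
  goodC (by decide) (by decide) (by decide +kernel) (by decide +kernel) c3_938 (consC g3_939 (consC g3_943 (consC g3_944 (consC g3_945 (consC g3_946 (consC g3_951 (consC g3_957 (consC g3_964 nilC))))))))

theorem g3_937 : GoodC 8 3 16053055624 :=
  goodC (by decide) (by decide) (by decide +kernel) (by decide +kernel) c3_937 nilC

theorem g3_936 : GoodC 8 3 1002821791880 :=
  goodC (by decide) (by decide) (by decide +kernel) (by decide +kernel) c3_936 nilC

theorem g3_935 : GoodC 8 3 109468594312 :=
  goodC (by decide) (by decide) (by decide +kernel) (by decide +kernel) c3_935 (consC g3_936 nilC)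

theorem g3_934 : GoodC 8 3 14979313800 :=
  goodC (by decide) (by decide) (by decide +kernel) (by decide +kernel) c3_934 (consC g3_935 nilC)

theorem g3_933 : GoodC 8 3 12831830152 :=
  goodC (by decide) (by decide) (by decide +kernel) (by decide +kernel) c3_933 nilC

theorem g3_932 : GoodC 8 3 11758088328 :=
  goodC (by decide) (by decide) (by decide +kernel) (by decide +kernel) c3_932 nilC

theorem g3_931 : GoodC 8 3 9610604680 :=
  goodC (by decide) (by decide) (by decide +kernel) (by decide +kernel) c3_931 nilC

theorem g3_930 : GoodC 8 3 2094411912 :=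
  goodC (by decide) (by decide) (by decide +kernel) (by decide +kernel) c3_930 (consC g3_931 (consC g3_932 (consC g3_933 (consC g3_934 (consC g3_937 nilC)))))

theorem g3_929 : GoodC 8 3 128259076232 :=
  goodC (by decide) (by decide) (by decide +kernel) (by decide +kernel) c3_929 nilC

theorem g3_928 : GoodC 8 3 119669141640 :=
  goodC (by decide) (by decide) (by decide +kernel) (by decide +kernel) c3_928 nilC

theorem g3_927 : GoodC 8 3 16589926536 :=
  goodC (by decide) (by decide) (by decide +kernel) (by decide +kernel) c3_927 (consC g3_928 (consC g3_929 nilC))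

theorem g3_926 : GoodC 8 3 134701527176 :=
  goodC (by decide) (by decide) (by decide +kernel) (by decide +kernel) c3_926 nilC

theorem g3_925 : GoodC 8 3 1071004397704 :=
  goodC (by decide) (by decide) (by decide +kernel) (by decide +kernel) c3_925 nilC

theorem g3_924 : GoodC 8 3 1002284920968 :=
  goodC (by decide) (by decide) (by decide +kernel) (by decide +kernel) c3_924 nilC

theorem g3_923 : GoodC 8 3 108931723400 :=
  goodC (by decide) (by decide) (by decide +kernel) (by decide +kernel) c3_923 (consC g3_924 (consC g3_925 nilC))

theorem g3_922 : GoodC 8 3 91751854216 :=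
  goodC (by decide) (by decide) (by decide +kernel) (by decide +kernel) c3_922 nilC

theorem g3_921 : GoodC 8 3 14442442888 :=
  goodC (by decide) (by decide) (by decide +kernel) (by decide +kernel) c3_921 (consC g3_922 (consC g3_923 (consC g3_926 nilC)))

theorem g3_920 : GoodC 8 3 11221217416 :=
  goodC (by decide) (by decide) (by decide +kernel) (by decide +kernel) c3_920 nilC

theorem g3_919 : GoodC 8 3 10147475592 :=
  goodC (by decide) (by decide) (by decide +kernel) (by decide +kernel) c3_919 nilC

theorem g3_918 : GoodC 8 3 16455708808 :=
  goodC (by decide) (by decide) (by decide +kernel) (by decide +kernel) c3_918 nilC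

theorem g3_917 : GoodC 8 3 15381966984 :=
  goodC (by decide) (by decide) (by decide +kernel) (by decide +kernel) c3_917 nilC

theorem g3_916 : GoodC 8 3 108797505672 :=
  goodC (by decide) (by decide) (by decide +kernel) (by decide +kernel) c3_916 nilC

theorem g3_915 : GoodC 8 3 1423323272 :=
  goodC (by decide) (by decide) (by decide +kernel) (by decide +kernel) c3_915 (consC g3_916 (consC g3_917 (consC g3_918 nilC)))

theorem g3_914 : GoodC 8 3 16321491080 :=
  goodC (by decide) (by decide) (by decide +kernel) (by decide +kernel) c3_914 nilC

theorem g3_913 : GoodC 8 3 108663287944 :=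
  goodC (by decide) (by decide) (by decide +kernel) (by decide +kernel) c3_913 nilC

theorem g3_912 : GoodC 8 3 8805298312 :=
  goodC (by decide) (by decide) (by decide +kernel) (by decide +kernel) c3_912 nilC

theorem g3_911 : GoodC 8 3 1289105544 :=
  goodC (by decide) (by decide) (by decide +kernel) (by decide +kernel) c3_911 (consC g3_912 (consC g3_913 (consC g3_914 nilC)))

theorem g3_910 : GoodC 8 3 16187273352 :=
  goodC (by decide) (by decide) (by decide +kernel) (by decide +kernel) c3_910 nilC

theorem g3_909 : GoodC 8 3 15113531528 :=
  goodC (by decide) (by decide) (by decide +kernel) (by decide +kernel) c3_909 nilC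

theorem g3_908 : GoodC 8 3 108529070216 :=
  goodC (by decide) (by decide) (by decide +kernel) (by decide +kernel) c3_908 nilC

theorem g3_907 : GoodC 8 3 10818564232 :=
  goodC (by decide) (by decide) (by decide +kernel) (by decide +kernel) c3_907 nilC

theorem g3_906 : GoodC 8 3 215363720 :=
  goodC (by decide) (by decide) (by decide +kernel) (by decide +kernel) c3_906 (consC g3_907 (consC g3_908 (consC g3_909 (consC g3_910 (consC g3_911 (consC g3_915 (consC g3_919 (consC g3_920 (consC g3_921 (consC g3_927 (consC g3_930 nilC)))))))))))

theorem g3_905 : GoodC 8 3 16036278408 :=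
  goodC (by decide) (by decide) (by decide +kernel) (by decide +kernel) c3_905 nilC

theorem g3_904 : GoodC 8 3 100861882504 :=
  goodC (by decide) (by decide) (by decide +kernel) (by decide +kernel) c3_904 nilC

theorem g3_903 : GoodC 8 3 14962536584 :=
  goodC (by decide) (by decide) (by decide +kernel) (by decide +kernel) c3_903 (consC g3_904 nilC)

theorem g3_902 : GoodC 8 3 13888794760 :=
  goodC (by decide) (by decide) (by decide +kernel) (by decide +kernel) c3_902 nilC

theorem g3_901 : GoodC 8 3 11741311112 :=
  goodC (by decide) (by decide) (by decide +kernel) (by decide +kernel) c3_901 nilC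

theorem g3_900 : GoodC 8 3 9593827464 :=
  goodC (by decide) (by decide) (by decide +kernel) (by decide +kernel) c3_900 nilC

theorem g3_899 : GoodC 8 3 128510734472 :=
  goodC (by decide) (by decide) (by decide +kernel) (by decide +kernel) c3_899 nilC

theorem g3_898 : GoodC 8 3 16841584776 :=
  goodC (by decide) (by decide) (by decide +kernel) (by decide +kernel) c3_898 (consC g3_899 nilC)

theorem g3_897 : GoodC 8 3 133879443592 :=
  goodC (by decide) (by decide) (by decide +kernel) (by decide +kernel) c3_897 nilC

theorem g3_896 : GoodC 8 3 13620359304 :=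
  goodC (by decide) (by decide) (by decide +kernel) (by decide +kernel) c3_896 (consC g3_897 nilC)

theorem g3_895 : GoodC 8 3 11472875656 :=
  goodC (by decide) (by decide) (by decide +kernel) (by decide +kernel) c3_895 nilC

theorem g3_894 : GoodC 8 3 9325392008 :=
  goodC (by decide) (by decide) (by decide +kernel) (by decide +kernel) c3_894 nilC

theorem g3_893 : GoodC 8 3 16438931592 :=
  goodC (by decide) (by decide) (by decide +kernel) (by decide +kernel) c3_893 nilC

theorem g3_892 : GoodC 8 3 14291447944 :=
  goodC (by decide) (by decide) (by decide +kernel) (by decide +kernel) c3_892 nilC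

theorem g3_891 : GoodC 8 3 13217706120 :=
  goodC (by decide) (by decide) (by decide +kernel) (by decide +kernel) c3_891 nilC

theorem g3_890 : GoodC 8 3 1406546056 :=
  goodC (by decide) (by decide) (by decide +kernel) (by decide +kernel) c3_890 (consC g3_891 (consC g3_892 (consC g3_893 nilC)))

theorem g3_889 : GoodC 8 3 16304713864 :=
  goodC (by decide) (by decide) (by decide +kernel) (by decide +kernel) c3_889 nilC

theorem g3_888 : GoodC 8 3 14157230216 :=
  goodC (by decide) (by decide) (by decide +kernel) (by decide +kernel) c3_888 nilC

theorem g3_887 : GoodC 8 3 13083488392 :=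
  goodC (by decide) (by decide) (by decide +kernel) (by decide +kernel) c3_887 nilC

theorem g3_886 : GoodC 8 3 86097932424 :=
  goodC (by decide) (by decide) (by decide +kernel) (by decide +kernel) c3_886 nilC

theorem g3_885 : GoodC 8 3 1272328328 :=
  goodC (by decide) (by decide) (by decide +kernel) (by decide +kernel) c3_885 (consC g3_886 (consC g3_887 (consC g3_888 (consC g3_889 nilC))))

theorem g3_884 : GoodC 8 3 16170496136 :=
  goodC (by decide) (by decide) (by decide +kernel) (by decide +kernel) c3_884 nilC

theorem g3_883 : GoodC 8 3 14023012488 :=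
  goodC (by decide) (by decide) (by decide +kernel) (by decide +kernel) c3_883 nilC

theorem g3_882 : GoodC 8 3 98848616584 :=
  goodC (by decide) (by decide) (by decide +kernel) (by decide +kernel) c3_882 nilC

theorem g3_881 : GoodC 8 3 1138110600 :=
  goodC (by decide) (by decide) (by decide +kernel) (by decide +kernel) c3_881 (consC g3_882 (consC g3_883 (consC g3_884 nilC)))

theorem g3_880 : GoodC 8 3 198586504 :=
  goodC (by decide) (by decide) (by decide +kernel) (by decide +kernel) c3_880 (consC g3_881 (consC g3_885 (consC g3_890 (consC g3_894 (consC g3_895 (consC g3_896 (consC g3_898 (consC g3_900 (consC g3_901 (consC g3_902 (consC g3_903 (consC g3_905 nilC))))))))))))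

theorem g3_879 : GoodC 8 3 16019501192 :=
  goodC (by decide) (by decide) (by decide +kernel) (by decide +kernel) c3_879 nilC

theorem g3_878 : GoodC 8 3 14945759368 :=
  goodC (by decide) (by decide) (by decide +kernel) (by decide +kernel) c3_878 nilC

theorem g3_877 : GoodC 8 3 13872017544 :=
  goodC (by decide) (by decide) (by decide +kernel) (by decide +kernel) c3_877 nilC

theorem g3_876 : GoodC 8 3 12798275720 :=
  goodC (by decide) (by decide) (by decide +kernel) (by decide +kernel) c3_876 nilC

theorem g3_875 : GoodC 8 3 9577050248 :=
  goodC (by decide) (by decide) (by decide +kernel) (by decide +kernel) c3_875 nilC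

theorem g3_874 : GoodC 8 3 16824807560 :=
  goodC (by decide) (by decide) (by decide +kernel) (by decide +kernel) c3_874 nilC

theorem g3_873 : GoodC 8 3 125272731784 :=
  goodC (by decide) (by decide) (by decide +kernel) (by decide +kernel) c3_873 nilC

theorem g3_872 : GoodC 8 3 13603582088 :=
  goodC (by decide) (by decide) (by decide +kernel) (by decide +kernel) c3_872 (consC g3_873 nilC)

theorem g3_871 : GoodC 8 3 12529840264 :=
  goodC (by decide) (by decide) (by decide +kernel) (by decide +kernel) c3_871 nilC

theorem g3_870 : GoodC 8 3 1792422024 :=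
  goodC (by decide) (by decide) (by decide +kernel) (by decide +kernel) c3_870 (consC g3_871 (consC g3_872 (consC g3_874 nilC)))

theorem g3_869 : GoodC 8 3 16690589832 :=
  goodC (by decide) (by decide) (by decide +kernel) (by decide +kernel) c3_869 nilC

theorem g3_868 : GoodC 8 3 12395622536 :=
  goodC (by decide) (by decide) (by decide +kernel) (by decide +kernel) c3_868 nilC

theorem g3_867 : GoodC 8 3 9174397064 :=
  goodC (by decide) (by decide) (by decide +kernel) (by decide +kernel) c3_867 nilC

theorem g3_866 : GoodC 8 3 16556372104 :=
  goodC (by decide) (by decide) (by decide +kernel) (by decide +kernel) c3_866 nilC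

theorem g3_865 : GoodC 8 3 15482630280 :=
  goodC (by decide) (by decide) (by decide +kernel) (by decide +kernel) c3_865 nilC

theorem g3_864 : GoodC 8 3 14408888456 :=
  goodC (by decide) (by decide) (by decide +kernel) (by decide +kernel) c3_864 nilC

theorem g3_863 : GoodC 8 3 1523986568 :=
  goodC (by decide) (by decide) (by decide +kernel) (by decide +kernel) c3_863 (consC g3_864 (consC g3_865 (consC g3_866 nilC)))

theorem g3_862 : GoodC 8 3 181809288 :=
  goodC (by decide) (by decide) (by decide +kernel) (by decide +kernel) c3_862 (consC g3_863 (consC g3_867 (consC g3_868 (consC g3_869 (consC g3_870 (consC g3_875 (consC g3_876 (consC g3_877 (consC g3_878 (consC g3_879 nilC))))))))))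

theorem g3_861 : GoodC 8 3 16002723976 :=
  goodC (by decide) (by decide) (by decide +kernel) (by decide +kernel) c3_861 nilC

theorem g3_860 : GoodC 8 3 14928982152 :=
  goodC (by decide) (by decide) (by decide +kernel) (by decide +kernel) c3_860 nilC

theorem g3_859 : GoodC 8 3 13855240328 :=
  goodC (by decide) (by decide) (by decide +kernel) (by decide +kernel) c3_859 nilC

theorem g3_858 : GoodC 8 3 12781498504 :=
  goodC (by decide) (by decide) (by decide +kernel) (by decide +kernel) c3_858 nilC

theorem g3_857 : GoodC 8 3 2044080264 :=
  goodC (by decide) (by decide) (by decide +kernel) (by decide +kernel) c3_857 (consC g3_858 (consC g3_859 (consC g3_860 (consC g3_861 nilC))))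

theorem g3_856 : GoodC 8 3 16808030344 :=
  goodC (by decide) (by decide) (by decide +kernel) (by decide +kernel) c3_856 nilC

theorem g3_855 : GoodC 8 3 949889675400 :=
  goodC (by decide) (by decide) (by decide +kernel) (by decide +kernel) c3_855 nilC

theorem g3_854 : GoodC 8 3 125255954568 :=
  goodC (by decide) (by decide) (by decide +kernel) (by decide +kernel) c3_854 (consC g3_855 nilC)

theorem g3_853 : GoodC 8 3 13586804872 :=
  goodC (by decide) (by decide) (by decide +kernel) (by decide +kernel) c3_853 (consC g3_854 nilC)

theorem g3_852 : GoodC 8 3 12513063048 :=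
  goodC (by decide) (by decide) (by decide +kernel) (by decide +kernel) c3_852 nilC

theorem g3_851 : GoodC 8 3 1775644808 :=
  goodC (by decide) (by decide) (by decide +kernel) (by decide +kernel) c3_851 (consC g3_852 (consC g3_853 (consC g3_856 nilC)))

theorem g3_850 : GoodC 8 3 16673812616 :=
  goodC (by decide) (by decide) (by decide +kernel) (by decide +kernel) c3_850 nilC

theorem g3_849 : GoodC 8 3 12378845320 :=
  goodC (by decide) (by decide) (by decide +kernel) (by decide +kernel) c3_849 nilC

theorem g3_848 : GoodC 8 3 1641427080 :=
  goodC (by decide) (by decide) (by decide +kernel) (by decide +kernel) c3_848 (consC g3_849 (consC g3_850 nilC))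

theorem g3_847 : GoodC 8 3 16136941704 :=
  goodC (by decide) (by decide) (by decide +kernel) (by decide +kernel) c3_847 nilC

theorem g3_846 : GoodC 8 3 13989458056 :=
  goodC (by decide) (by decide) (by decide +kernel) (by decide +kernel) c3_846 nilC

theorem g3_845 : GoodC 8 3 96667578504 :=
  goodC (by decide) (by decide) (by decide +kernel) (by decide +kernel) c3_845 nilC

theorem g3_844 : GoodC 8 3 10768232584 :=
  goodC (by decide) (by decide) (by decide +kernel) (by decide +kernel) c3_844 (consC g3_845 nilC)

theorem g3_843 : GoodC 8 3 14912204936 :=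
  goodC (by decide) (by decide) (by decide +kernel) (by decide +kernel) c3_843 nilC

theorem g3_842 : GoodC 8 3 13838463112 :=
  goodC (by decide) (by decide) (by decide +kernel) (by decide +kernel) c3_842 nilC

theorem g3_841 : GoodC 8 3 12764721288 :=
  goodC (by decide) (by decide) (by decide +kernel) (by decide +kernel) c3_841 nilC

theorem g3_840 : GoodC 8 3 10617237640 :=
  goodC (by decide) (by decide) (by decide +kernel) (by decide +kernel) c3_840 nilC

theorem g3_839 : GoodC 8 3 2027303048 :=
  goodC (by decide) (by decide) (by decide +kernel) (by decide +kernel) c3_839 (consC g3_840 (consC g3_841 (consC g3_842 (consC g3_843 nilC))))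

theorem g3_838 : GoodC 8 3 16791253128 :=
  goodC (by decide) (by decide) (by decide +kernel) (by decide +kernel) c3_838 nilC

theorem g3_837 : GoodC 8 3 125239177352 :=
  goodC (by decide) (by decide) (by decide +kernel) (by decide +kernel) c3_837 nilC

theorem g3_836 : GoodC 8 3 13570027656 :=
  goodC (by decide) (by decide) (by decide +kernel) (by decide +kernel) c3_836 (consC g3_837 nilC)

theorem g3_835 : GoodC 8 3 72625827976 :=
  goodC (by decide) (by decide) (by decide +kernel) (by decide +kernel) c3_835 nilC

theorem g3_834 : GoodC 8 3 12496285832 :=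
  goodC (by decide) (by decide) (by decide +kernel) (by decide +kernel) c3_834 (consC g3_835 nilC)

theorem g3_833 : GoodC 8 3 1758867592 :=
  goodC (by decide) (by decide) (by decide +kernel) (by decide +kernel) c3_833 (consC g3_834 (consC g3_836 (consC g3_838 nilC)))

theorem g3_832 : GoodC 8 3 16657035400 :=
  goodC (by decide) (by decide) (by decide +kernel) (by decide +kernel) c3_832 nilC

theorem g3_831 : GoodC 8 3 12362068104 :=
  goodC (by decide) (by decide) (by decide +kernel) (by decide +kernel) c3_831 nilC

theorem g3_830 : GoodC 8 3 1624649864 :=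
  goodC (by decide) (by decide) (by decide +kernel) (by decide +kernel) c3_830 (consC g3_831 (consC g3_832 nilC))

theorem g3_829 : GoodC 8 3 16388599944 :=
  goodC (by decide) (by decide) (by decide +kernel) (by decide +kernel) c3_829 nilC

theorem g3_828 : GoodC 8 3 72223174792 :=
  goodC (by decide) (by decide) (by decide +kernel) (by decide +kernel) c3_828 nilC

theorem g3_827 : GoodC 8 3 12093632648 :=
  goodC (by decide) (by decide) (by decide +kernel) (by decide +kernel) c3_827 (consC g3_828 nilC)

theorem g3_826 : GoodC 8 3 148254856 :=
  goodC (by decide) (by decide) (by decide +kernel) (by decide +kernel) c3_826 (consC g3_827 (consC g3_829 (consC g3_830 (consC g3_833 (consC g3_839 nilC)))))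

theorem g3_825 : GoodC 8 3 30814344 :=
  goodC (by decide) (by decide) (by decide +kernel) (by decide +kernel) c3_825 (consC g3_826 (consC g3_844 (consC g3_846 (consC g3_847 (consC g3_848 (consC g3_851 (consC g3_857 (consC g3_862 (consC g3_880 (consC g3_906 (consC g3_938 nilC)))))))))))

theorem g3_824 : GoodC 8 3 15006576776 :=
  goodC (by decide) (by decide) (by decide +kernel) (by decide +kernel) c3_824 nilC

theorem g3_823 : GoodC 8 3 13932834952 :=
  goodC (by decide) (by decide) (by decide +kernel) (by decide +kernel) c3_823 nilC

theorem g3_822 : GoodC 8 3 115938308232 :=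
  goodC (by decide) (by decide) (by decide +kernel) (by decide +kernel) c3_822 nilC

theorem g3_821 : GoodC 8 3 12859093128 :=
  goodC (by decide) (by decide) (by decide +kernel) (by decide +kernel) c3_821 (consC g3_822 nilC)

theorem g3_820 : GoodC 8 3 11785351304 :=
  goodC (by decide) (by decide) (by decide +kernel) (by decide +kernel) c3_820 nilC

theorem g3_819 : GoodC 8 3 9637867656 :=
  goodC (by decide) (by decide) (by decide +kernel) (by decide +kernel) c3_819 nilC

theorem g3_818 : GoodC 8 3 2121674888 :=
  goodC (by decide) (by decide) (by decide +kernel) (by decide +kernel) c3_818 (consC g3_819 (consC g3_820 (consC g3_821 (consC g3_823 (consC g3_824 nilC)))))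

theorem g3_817 : GoodC 8 3 111374905480 :=
  goodC (by decide) (by decide) (by decide +kernel) (by decide +kernel) c3_817 nilC

theorem g3_816 : GoodC 8 3 16885624968 :=
  goodC (by decide) (by decide) (by decide +kernel) (by decide +kernel) c3_816 (consC g3_817 nilC)

theorem g3_815 : GoodC 8 3 11516915848 :=
  goodC (by decide) (by decide) (by decide +kernel) (by decide +kernel) c3_815 nilC

theorem g3_814 : GoodC 8 3 10443174024 :=
  goodC (by decide) (by decide) (by decide +kernel) (by decide +kernel) c3_814 nilC

theorem g3_813 : GoodC 8 3 1853239432 :=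
  goodC (by decide) (by decide) (by decide +kernel) (by decide +kernel) c3_813 (consC g3_814 (consC g3_815 (consC g3_816 nilC)))

theorem g3_812 : GoodC 8 3 102650753160 :=
  goodC (by decide) (by decide) (by decide +kernel) (by decide +kernel) c3_812 nilC

theorem g3_811 : GoodC 8 3 16751407240 :=
  goodC (by decide) (by decide) (by decide +kernel) (by decide +kernel) c3_811 (consC g3_812 nilC)

theorem g3_810 : GoodC 8 3 132715524232 :=
  goodC (by decide) (by decide) (by decide +kernel) (by decide +kernel) c3_810 nilC

theorem g3_809 : GoodC 8 3 1077608329352 :=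
  goodC (by decide) (by decide) (by decide +kernel) (by decide +kernel) c3_809 nilC

theorem g3_808 : GoodC 8 3 115535655048 :=
  goodC (by decide) (by decide) (by decide +kernel) (by decide +kernel) c3_808 (consC g3_809 nilC)

theorem g3_807 : GoodC 8 3 81175916680 :=
  goodC (by decide) (by decide) (by decide +kernel) (by decide +kernel) c3_807 nilC

theorem g3_806 : GoodC 8 3 72585982088 :=
  goodC (by decide) (by decide) (by decide +kernel) (by decide +kernel) c3_806 nilC

theorem g3_805 : GoodC 8 3 11382698120 :=
  goodC (by decide) (by decide) (by decide +kernel) (by decide +kernel) c3_805 nilC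

theorem g3_804 : GoodC 8 3 10308956296 :=
  goodC (by decide) (by decide) (by decide +kernel) (by decide +kernel) c3_804 nilC

theorem g3_803 : GoodC 8 3 9235214472 :=
  goodC (by decide) (by decide) (by decide +kernel) (by decide +kernel) c3_803 nilC

theorem g3_802 : GoodC 8 3 102382317704 :=
  goodC (by decide) (by decide) (by decide +kernel) (by decide +kernel) c3_802 nilC

theorem g3_801 : GoodC 8 3 16482971784 :=
  goodC (by decide) (by decide) (by decide +kernel) (by decide +kernel) c3_801 (consC g3_802 nilC)

theorem g3_800 : GoodC 8 3 13261746312 :=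
  goodC (by decide) (by decide) (by decide +kernel) (by decide +kernel) c3_800 nilC

theorem g3_799 : GoodC 8 3 12188004488 :=
  goodC (by decide) (by decide) (by decide +kernel) (by decide +kernel) c3_799 nilC

theorem g3_798 : GoodC 8 3 16348754056 :=
  goodC (by decide) (by decide) (by decide +kernel) (by decide +kernel) c3_798 nilC

theorem g3_797 : GoodC 8 3 8832561288 :=
  goodC (by decide) (by decide) (by decide +kernel) (by decide +kernel) c3_797 nilC

theorem g3_796 : GoodC 8 3 1316368520 :=
  goodC (by decide) (by decide) (by decide +kernel) (by decide +kernel) c3_796 (consC g3_797 (consC g3_798 nilC))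

theorem g3_795 : GoodC 8 3 102113882248 :=
  goodC (by decide) (by decide) (by decide +kernel) (by decide +kernel) c3_795 nilC

theorem g3_794 : GoodC 8 3 16214536328 :=
  goodC (by decide) (by decide) (by decide +kernel) (by decide +kernel) c3_794 (consC g3_795 nilC)

theorem g3_793 : GoodC 8 3 10845827208 :=
  goodC (by decide) (by decide) (by decide +kernel) (by decide +kernel) c3_793 nilC

theorem g3_792 : GoodC 8 3 1182150792 :=
  goodC (by decide) (by decide) (by decide +kernel) (by decide +kernel) c3_792 (consC g3_793 (consC g3_794 nilC))

theorem g3_791 : GoodC 8 3 242626696 :=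
  goodC (by decide) (by decide) (by decide +kernel) (by decide +kernel) c3_791 (consC g3_792 (consC g3_796 (consC g3_799 (consC g3_800 (consC g3_801 (consC g3_803 (consC g3_804 (consC g3_805 (consC g3_806 (consC g3_807 (consC g3_808 (consC g3_810 (consC g3_811 (consC g3_813 (consC g3_818 nilC)))))))))))))))

theorem g3_790 : GoodC 8 3 16952733832 :=
  goodC (by decide) (by decide) (by decide +kernel) (by decide +kernel) c3_790 nilC

theorem g3_789 : GoodC 8 3 14805250184 :=
  goodC (by decide) (by decide) (by decide +kernel) (by decide +kernel) c3_789 nilC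

theorem g3_788 : GoodC 8 3 13731508360 :=
  goodC (by decide) (by decide) (by decide +kernel) (by decide +kernel) c3_788 nilC

theorem g3_787 : GoodC 8 3 12657766536 :=
  goodC (by decide) (by decide) (by decide +kernel) (by decide +kernel) c3_787 nilC

theorem g3_786 : GoodC 8 3 1920348296 :=
  goodC (by decide) (by decide) (by decide +kernel) (by decide +kernel) c3_786 (consC g3_787 (consC g3_788 (consC g3_789 (consC g3_790 nilC))))

theorem g3_785 : GoodC 8 3 15744774280 :=
  goodC (by decide) (by decide) (by decide +kernel) (by decide +kernel) c3_785 nilC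

theorem g3_784 : GoodC 8 3 1786130568 :=
  goodC (by decide) (by decide) (by decide +kernel) (by decide +kernel) c3_784 (consC g3_785 nilC)

theorem g3_783 : GoodC 8 3 15610556552 :=
  goodC (by decide) (by decide) (by decide +kernel) (by decide +kernel) c3_783 nilC

theorem g3_782 : GoodC 8 3 124058480776 :=
  goodC (by decide) (by decide) (by decide +kernel) (by decide +kernel) c3_782 nilC

theorem g3_781 : GoodC 8 3 16935956616 :=
  goodC (by decide) (by decide) (by decide +kernel) (by decide +kernel) c3_781 nilC

theorem g3_780 : GoodC 8 3 14788472968 :=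
  goodC (by decide) (by decide) (by decide +kernel) (by decide +kernel) c3_780 nilC

theorem g3_779 : GoodC 8 3 13714731144 :=
  goodC (by decide) (by decide) (by decide +kernel) (by decide +kernel) c3_779 nilC

theorem g3_778 : GoodC 8 3 12640989320 :=
  goodC (by decide) (by decide) (by decide +kernel) (by decide +kernel) c3_778 nilC

theorem g3_777 : GoodC 8 3 1903571080 :=
  goodC (by decide) (by decide) (by decide +kernel) (by decide +kernel) c3_777 (consC g3_778 (consC g3_779 (consC g3_780 (consC g3_781 nilC))))

theorem g3_776 : GoodC 8 3 101493125256 :=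
  goodC (by decide) (by decide) (by decide +kernel) (by decide +kernel) c3_776 nilC

theorem g3_775 : GoodC 8 3 15593779336 :=
  goodC (by decide) (by decide) (by decide +kernel) (by decide +kernel) c3_775 (consC g3_776 nilC)

theorem g3_774 : GoodC 8 3 124041703560 :=
  goodC (by decide) (by decide) (by decide +kernel) (by decide +kernel) c3_774 nilC

theorem g3_773 : GoodC 8 3 1008804966536 :=
  goodC (by decide) (by decide) (by decide +kernel) (by decide +kernel) c3_773 nilC

theorem g3_772 : GoodC 8 3 72502096008 :=
  goodC (by decide) (by decide) (by decide +kernel) (by decide +kernel) c3_772 nilC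

theorem g3_771 : GoodC 8 3 9151328392 :=
  goodC (by decide) (by decide) (by decide +kernel) (by decide +kernel) c3_771 nilC

theorem g3_770 : GoodC 8 3 83776385160 :=
  goodC (by decide) (by decide) (by decide +kernel) (by decide +kernel) c3_770 nilC

theorem g3_769 : GoodC 8 3 10761941128 :=
  goodC (by decide) (by decide) (by decide +kernel) (by decide +kernel) c3_769 nilC

theorem g3_768 : GoodC 8 3 1098264712 :=
  goodC (by decide) (by decide) (by decide +kernel) (by decide +kernel) c3_768 (consC g3_769 (consC g3_770 nilC))

theorem g3_767 : GoodC 8 3 16919179400 :=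
  goodC (by decide) (by decide) (by decide +kernel) (by decide +kernel) c3_767 nilC

theorem g3_766 : GoodC 8 3 74901237896 :=
  goodC (by decide) (by decide) (by decide +kernel) (by decide +kernel) c3_766 nilC

theorem g3_765 : GoodC 8 3 14771695752 :=
  goodC (by decide) (by decide) (by decide +kernel) (by decide +kernel) c3_765 (consC g3_766 nilC)

theorem g3_764 : GoodC 8 3 99597299848 :=
  goodC (by decide) (by decide) (by decide +kernel) (by decide +kernel) c3_764 nilC

theorem g3_763 : GoodC 8 3 12624212104 :=
  goodC (by decide) (by decide) (by decide +kernel) (by decide +kernel) c3_763 nilC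

theorem g3_762 : GoodC 8 3 10476728456 :=
  goodC (by decide) (by decide) (by decide +kernel) (by decide +kernel) c3_762 nilC

theorem g3_761 : GoodC 8 3 1886793864 :=
  goodC (by decide) (by decide) (by decide +kernel) (by decide +kernel) c3_761 (consC g3_762 (consC g3_763 (consC g3_764 (consC g3_765 (consC g3_767 nilC)))))

theorem g3_760 : GoodC 8 3 135836086408 :=
  goodC (by decide) (by decide) (by decide +kernel) (by decide +kernel) c3_760 nilC

theorem g3_759 : GoodC 8 3 15577002120 :=
  goodC (by decide) (by decide) (by decide +kernel) (by decide +kernel) c3_759 (consC g3_760 nilC)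

theorem g3_758 : GoodC 8 3 124024926344 :=
  goodC (by decide) (by decide) (by decide +kernel) (by decide +kernel) c3_758 nilC

theorem g3_757 : GoodC 8 3 115434991752 :=
  goodC (by decide) (by decide) (by decide +kernel) (by decide +kernel) c3_757 nilC

theorem g3_756 : GoodC 8 3 15308566664 :=
  goodC (by decide) (by decide) (by decide +kernel) (by decide +kernel) c3_756 nilC

theorem g3_755 : GoodC 8 3 1349922952 :=
  goodC (by decide) (by decide) (by decide +kernel) (by decide +kernel) c3_755 (consC g3_756 nilC)

theorem g3_754 : GoodC 8 3 141963400 :=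
  goodC (by decide) (by decide) (by decide +kernel) (by decide +kernel) c3_754 (consC g3_755 (consC g3_757 (consC g3_758 (consC g3_759 (consC g3_761 nilC)))))

theorem g3_753 : GoodC 8 3 24522888 :=
  goodC (by decide) (by decide) (by decide +kernel) (by decide +kernel) c3_753 (consC g3_754 (consC g3_768 (consC g3_771 (consC g3_772 (consC g3_773 (consC g3_774 (consC g3_775 (consC g3_777 (consC g3_782 (consC g3_783 (consC g3_784 (consC g3_786 (consC g3_791 nilC)))))))))))))

theorem g3_752 : GoodC 8 3 13930737800 :=
  goodC (by decide) (by decide) (by decide +kernel) (by decide +kernel) c3_752 nilC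

theorem g3_751 : GoodC 8 3 12856995976 :=
  goodC (by decide) (by decide) (by decide +kernel) (by decide +kernel) c3_751 nilC

theorem g3_750 : GoodC 8 3 11783254152 :=
  goodC (by decide) (by decide) (by decide +kernel) (by decide +kernel) c3_750 nilC

theorem g3_749 : GoodC 8 3 2119577736 :=
  goodC (by decide) (by decide) (by decide +kernel) (by decide +kernel) c3_749 (consC g3_750 (consC g3_751 (consC g3_752 nilC)))

theorem g3_748 : GoodC 8 3 16883527816 :=
  goodC (by decide) (by decide) (by decide +kernel) (by decide +kernel) c3_748 nilC

theorem g3_747 : GoodC 8 3 13662302344 :=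
  goodC (by decide) (by decide) (by decide +kernel) (by decide +kernel) c3_747 nilC

theorem g3_746 : GoodC 8 3 1851142280 :=
  goodC (by decide) (by decide) (by decide +kernel) (by decide +kernel) c3_746 (consC g3_747 (consC g3_748 nilC))

theorem g3_745 : GoodC 8 3 16749310088 :=
  goodC (by decide) (by decide) (by decide +kernel) (by decide +kernel) c3_745 nilC

theorem g3_744 : GoodC 8 3 12454342792 :=
  goodC (by decide) (by decide) (by decide +kernel) (by decide +kernel) c3_744 nilC

theorem g3_743 : GoodC 8 3 11380600968 :=
  goodC (by decide) (by decide) (by decide +kernel) (by decide +kernel) c3_743 nilC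

theorem g3_742 : GoodC 8 3 1716924552 :=
  goodC (by decide) (by decide) (by decide +kernel) (by decide +kernel) c3_742 (consC g3_743 (consC g3_744 (consC g3_745 nilC)))

theorem g3_741 : GoodC 8 3 16615092360 :=
  goodC (by decide) (by decide) (by decide +kernel) (by decide +kernel) c3_741 nilC

theorem g3_740 : GoodC 8 3 14467608712 :=
  goodC (by decide) (by decide) (by decide +kernel) (by decide +kernel) c3_740 nilC

theorem g3_739 : GoodC 8 3 11246383240 :=
  goodC (by decide) (by decide) (by decide +kernel) (by decide +kernel) c3_739 nilC

theorem g3_738 : GoodC 8 3 1582706824 :=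
  goodC (by decide) (by decide) (by decide +kernel) (by decide +kernel) c3_738 (consC g3_739 (consC g3_740 (consC g3_741 nilC)))

theorem g3_737 : GoodC 8 3 16346656904 :=
  goodC (by decide) (by decide) (by decide +kernel) (by decide +kernel) c3_737 nilC

theorem g3_736 : GoodC 8 3 8830464136 :=
  goodC (by decide) (by decide) (by decide +kernel) (by decide +kernel) c3_736 nilC

theorem g3_735 : GoodC 8 3 16212439176 :=
  goodC (by decide) (by decide) (by decide +kernel) (by decide +kernel) c3_735 nilC

theorem g3_734 : GoodC 8 3 10843730056 :=
  goodC (by decide) (by decide) (by decide +kernel) (by decide +kernel) c3_734 nilC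

theorem g3_733 : GoodC 8 3 1180053640 :=
  goodC (by decide) (by decide) (by decide +kernel) (by decide +kernel) c3_733 (consC g3_734 (consC g3_735 nilC))

theorem g3_732 : GoodC 8 3 240529544 :=
  goodC (by decide) (by decide) (by decide +kernel) (by decide +kernel) c3_732 (consC g3_733 (consC g3_736 (consC g3_737 (consC g3_738 (consC g3_742 (consC g3_746 (consC g3_749 nilC)))))))

theorem g3_731 : GoodC 8 3 16984191112 :=
  goodC (by decide) (by decide) (by decide +kernel) (by decide +kernel) c3_731 nilC

theorem g3_730 : GoodC 8 3 109325987976 :=
  goodC (by decide) (by decide) (by decide +kernel) (by decide +kernel) c3_730 nilC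

theorem g3_729 : GoodC 8 3 14836707464 :=
  goodC (by decide) (by decide) (by decide +kernel) (by decide +kernel) c3_729 (consC g3_730 nilC)

theorem g3_728 : GoodC 8 3 12689223816 :=
  goodC (by decide) (by decide) (by decide +kernel) (by decide +kernel) c3_728 nilC

theorem g3_727 : GoodC 8 3 1951805576 :=
  goodC (by decide) (by decide) (by decide +kernel) (by decide +kernel) c3_727 (consC g3_728 (consC g3_729 (consC g3_731 nilC)))

theorem g3_726 : GoodC 8 3 118587011208 :=
  goodC (by decide) (by decide) (by decide +kernel) (by decide +kernel) c3_726 nilC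

theorem g3_725 : GoodC 8 3 109997076616 :=
  goodC (by decide) (by decide) (by decide +kernel) (by decide +kernel) c3_725 nilC

theorem g3_724 : GoodC 8 3 15507796104 :=
  goodC (by decide) (by decide) (by decide +kernel) (by decide +kernel) c3_724 (consC g3_725 (consC g3_726 nilC))

theorem g3_723 : GoodC 8 3 108923334792 :=
  goodC (by decide) (by decide) (by decide +kernel) (by decide +kernel) c3_723 nilC

theorem g3_722 : GoodC 8 3 15239360648 :=
  goodC (by decide) (by decide) (by decide +kernel) (by decide +kernel) c3_722 nilC

theorem g3_721 : GoodC 8 3 1280716936 :=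
  goodC (by decide) (by decide) (by decide +kernel) (by decide +kernel) c3_721 (consC g3_722 nilC)

theorem g3_720 : GoodC 8 3 15105142920 :=
  goodC (by decide) (by decide) (by decide +kernel) (by decide +kernel) c3_720 nilC

theorem g3_719 : GoodC 8 3 1146499208 :=
  goodC (by decide) (by decide) (by decide +kernel) (by decide +kernel) c3_719 (consC g3_720 nilC)

theorem g3_718 : GoodC 8 3 16967413896 :=
  goodC (by decide) (by decide) (by decide +kernel) (by decide +kernel) c3_718 nilC

theorem g3_717 : GoodC 8 3 14819930248 :=
  goodC (by decide) (by decide) (by decide +kernel) (by decide +kernel) c3_717 nilC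

theorem g3_716 : GoodC 8 3 13746188424 :=
  goodC (by decide) (by decide) (by decide +kernel) (by decide +kernel) c3_716 nilC

theorem g3_715 : GoodC 8 3 1935028360 :=
  goodC (by decide) (by decide) (by decide +kernel) (by decide +kernel) c3_715 (consC g3_716 (consC g3_717 (consC g3_718 nilC)))

theorem g3_714 : GoodC 8 3 1800810632 :=
  goodC (by decide) (by decide) (by decide +kernel) (by decide +kernel) c3_714 nilC

theorem g3_713 : GoodC 8 3 12940882056 :=
  goodC (by decide) (by decide) (by decide +kernel) (by decide +kernel) c3_713 nilC

theorem g3_712 : GoodC 8 3 1129721992 :=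
  goodC (by decide) (by decide) (by decide +kernel) (by decide +kernel) c3_712 (consC g3_713 nilC)

theorem g3_711 : GoodC 8 3 22425736 :=
  goodC (by decide) (by decide) (by decide +kernel) (by decide +kernel) c3_711 (consC g3_712 (consC g3_714 (consC g3_715 (consC g3_719 (consC g3_721 (consC g3_723 (consC g3_724 (consC g3_727 (consC g3_732 nilC)))))))))

theorem g3_710 : GoodC 8 3 15002382472 :=
  goodC (by decide) (by decide) (by decide +kernel) (by decide +kernel) c3_710 nilC

theorem g3_709 : GoodC 8 3 13928640648 :=
  goodC (by decide) (by decide) (by decide +kernel) (by decide +kernel) c3_709 nilC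

theorem g3_708 : GoodC 8 3 10707415176 :=
  goodC (by decide) (by decide) (by decide +kernel) (by decide +kernel) c3_708 nilC

theorem g3_707 : GoodC 8 3 9633673352 :=
  goodC (by decide) (by decide) (by decide +kernel) (by decide +kernel) c3_707 nilC

theorem g3_706 : GoodC 8 3 2117480584 :=
  goodC (by decide) (by decide) (by decide +kernel) (by decide +kernel) c3_706 (consC g3_707 (consC g3_708 (consC g3_709 (consC g3_710 nilC))))

theorem g3_705 : GoodC 8 3 16881430664 :=
  goodC (by decide) (by decide) (by decide +kernel) (by decide +kernel) c3_705 nilC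

theorem g3_704 : GoodC 8 3 82379681928 :=
  goodC (by decide) (by decide) (by decide +kernel) (by decide +kernel) c3_704 nilC

theorem g3_703 : GoodC 8 3 9365237896 :=
  goodC (by decide) (by decide) (by decide +kernel) (by decide +kernel) c3_703 nilC

theorem g3_702 : GoodC 8 3 16747212936 :=
  goodC (by decide) (by decide) (by decide +kernel) (by decide +kernel) c3_702 nilC

theorem g3_701 : GoodC 8 3 113383977096 :=
  goodC (by decide) (by decide) (by decide +kernel) (by decide +kernel) c3_701 nilC

theorem g3_700 : GoodC 8 3 10304761992 :=
  goodC (by decide) (by decide) (by decide +kernel) (by decide +kernel) c3_700 (consC g3_701 nilC)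

theorem g3_699 : GoodC 8 3 9231020168 :=
  goodC (by decide) (by decide) (by decide +kernel) (by decide +kernel) c3_699 nilC

theorem g3_698 : GoodC 8 3 1714827400 :=
  goodC (by decide) (by decide) (by decide +kernel) (by decide +kernel) c3_698 (consC g3_699 (consC g3_700 (consC g3_702 nilC)))

theorem g3_697 : GoodC 8 3 16612995208 :=
  goodC (by decide) (by decide) (by decide +kernel) (by decide +kernel) c3_697 nilC

theorem g3_696 : GoodC 8 3 113249759368 :=
  goodC (by decide) (by decide) (by decide +kernel) (by decide +kernel) c3_696 nilC

theorem g3_695 : GoodC 8 3 10170544264 :=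
  goodC (by decide) (by decide) (by decide +kernel) (by decide +kernel) c3_695 (consC g3_696 nilC)

theorem g3_694 : GoodC 8 3 1580609672 :=
  goodC (by decide) (by decide) (by decide +kernel) (by decide +kernel) c3_694 (consC g3_695 (consC g3_697 nilC))

theorem g3_693 : GoodC 8 3 16478777480 :=
  goodC (by decide) (by decide) (by decide +kernel) (by decide +kernel) c3_693 nilC

theorem g3_692 : GoodC 8 3 1446391944 :=
  goodC (by decide) (by decide) (by decide +kernel) (by decide +kernel) c3_692 (consC g3_693 nilC)

theorem g3_691 : GoodC 8 3 16210342024 :=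
  goodC (by decide) (by decide) (by decide +kernel) (by decide +kernel) c3_691 nilC

theorem g3_690 : GoodC 8 3 12989116552 :=
  goodC (by decide) (by decide) (by decide +kernel) (by decide +kernel) c3_690 nilC

theorem g3_689 : GoodC 8 3 1177956488 :=
  goodC (by decide) (by decide) (by decide +kernel) (by decide +kernel) c3_689 (consC g3_690 (consC g3_691 nilC))

theorem g3_688 : GoodC 8 3 238432392 :=
  goodC (by decide) (by decide) (by decide +kernel) (by decide +kernel) c3_688 (consC g3_689 (consC g3_692 (consC g3_694 (consC g3_698 (consC g3_703 (consC g3_704 (consC g3_705 (consC g3_706 nilC))))))))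

theorem g3_687 : GoodC 8 3 16982093960 :=
  goodC (by decide) (by decide) (by decide +kernel) (by decide +kernel) c3_687 nilC

theorem g3_686 : GoodC 8 3 109323890824 :=
  goodC (by decide) (by decide) (by decide +kernel) (by decide +kernel) c3_686 nilC

theorem g3_685 : GoodC 8 3 12687126664 :=
  goodC (by decide) (by decide) (by decide +kernel) (by decide +kernel) c3_685 nilC

theorem g3_684 : GoodC 8 3 10539643016 :=
  goodC (by decide) (by decide) (by decide +kernel) (by decide +kernel) c3_684 nilC

theorem g3_683 : GoodC 8 3 9465901192 :=
  goodC (by decide) (by decide) (by decide +kernel) (by decide +kernel) c3_683 nilC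

theorem g3_682 : GoodC 8 3 1949708424 :=
  goodC (by decide) (by decide) (by decide +kernel) (by decide +kernel) c3_682 (consC g3_683 (consC g3_684 (consC g3_685 (consC g3_686 (consC g3_687 nilC)))))

theorem g3_681 : GoodC 8 3 118584914056 :=
  goodC (by decide) (by decide) (by decide +kernel) (by decide +kernel) c3_681 nilC

theorem g3_680 : GoodC 8 3 109994979464 :=
  goodC (by decide) (by decide) (by decide +kernel) (by decide +kernel) c3_680 nilC

theorem g3_679 : GoodC 8 3 15505698952 :=
  goodC (by decide) (by decide) (by decide +kernel) (by decide +kernel) c3_679 (consC g3_680 (consC g3_681 nilC))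

theorem g3_678 : GoodC 8 3 1412837512 :=
  goodC (by decide) (by decide) (by decide +kernel) (by decide +kernel) c3_678 nilC

theorem g3_677 : GoodC 8 3 15103045768 :=
  goodC (by decide) (by decide) (by decide +kernel) (by decide +kernel) c3_677 nilC

theorem g3_676 : GoodC 8 3 204877960 :=
  goodC (by decide) (by decide) (by decide +kernel) (by decide +kernel) c3_676 (consC g3_677 (consC g3_678 (consC g3_679 (consC g3_682 nilC))))

theorem g3_675 : GoodC 8 3 111404265608 :=
  goodC (by decide) (by decide) (by decide +kernel) (by decide +kernel) c3_675 nilC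

theorem g3_674 : GoodC 8 3 16914985096 :=
  goodC (by decide) (by decide) (by decide +kernel) (by decide +kernel) c3_674 (consC g3_675 nilC)

theorem g3_673 : GoodC 8 3 133952843912 :=
  goodC (by decide) (by decide) (by decide +kernel) (by decide +kernel) c3_673 nilC

theorem g3_672 : GoodC 8 3 13693759624 :=
  goodC (by decide) (by decide) (by decide +kernel) (by decide +kernel) c3_672 (consC g3_673 nilC)

theorem g3_671 : GoodC 8 3 11546275976 :=
  goodC (by decide) (by decide) (by decide +kernel) (by decide +kernel) c3_671 nilC

theorem g3_670 : GoodC 8 3 10472534152 :=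
  goodC (by decide) (by decide) (by decide +kernel) (by decide +kernel) c3_670 nilC

theorem g3_669 : GoodC 8 3 1882599560 :=
  goodC (by decide) (by decide) (by decide +kernel) (by decide +kernel) c3_669 (consC g3_670 (consC g3_671 (consC g3_672 (consC g3_674 nilC))))

theorem g3_668 : GoodC 8 3 135831892104 :=
  goodC (by decide) (by decide) (by decide +kernel) (by decide +kernel) c3_668 nilC

theorem g3_667 : GoodC 8 3 15572807816 :=
  goodC (by decide) (by decide) (by decide +kernel) (by decide +kernel) c3_667 (consC g3_668 nilC)

theorem g3_666 : GoodC 8 3 1614164104 :=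
  goodC (by decide) (by decide) (by decide +kernel) (by decide +kernel) c3_666 (consC g3_667 nilC)

theorem g3_665 : GoodC 8 3 135563456648 :=
  goodC (by decide) (by decide) (by decide +kernel) (by decide +kernel) c3_665 nilC

theorem g3_664 : GoodC 8 3 109793652872 :=
  goodC (by decide) (by decide) (by decide +kernel) (by decide +kernel) c3_664 nilC

theorem g3_663 : GoodC 8 3 15304372360 :=
  goodC (by decide) (by decide) (by decide +kernel) (by decide +kernel) c3_663 (consC g3_664 (consC g3_665 nilC))

theorem g3_662 : GoodC 8 3 13156888712 :=
  goodC (by decide) (by decide) (by decide +kernel) (by decide +kernel) c3_662 nilC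

theorem g3_661 : GoodC 8 3 72212689032 :=
  goodC (by decide) (by decide) (by decide +kernel) (by decide +kernel) c3_661 nilC

theorem g3_660 : GoodC 8 3 13926543496 :=
  goodC (by decide) (by decide) (by decide +kernel) (by decide +kernel) c3_660 nilC

theorem g3_659 : GoodC 8 3 12852801672 :=
  goodC (by decide) (by decide) (by decide +kernel) (by decide +kernel) c3_659 nilC

theorem g3_658 : GoodC 8 3 11779059848 :=
  goodC (by decide) (by decide) (by decide +kernel) (by decide +kernel) c3_658 nilC

theorem g3_657 : GoodC 8 3 9631576200 :=
  goodC (by decide) (by decide) (by decide +kernel) (by decide +kernel) c3_657 nilC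

theorem g3_656 : GoodC 8 3 2115383432 :=
  goodC (by decide) (by decide) (by decide +kernel) (by decide +kernel) c3_656 (consC g3_657 (consC g3_658 (consC g3_659 (consC g3_660 nilC))))

theorem g3_655 : GoodC 8 3 16879333512 :=
  goodC (by decide) (by decide) (by decide +kernel) (by decide +kernel) c3_655 nilC

theorem g3_654 : GoodC 8 3 13658108040 :=
  goodC (by decide) (by decide) (by decide +kernel) (by decide +kernel) c3_654 nilC

theorem g3_653 : GoodC 8 3 16745115784 :=
  goodC (by decide) (by decide) (by decide +kernel) (by decide +kernel) c3_653 nilC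

theorem g3_652 : GoodC 8 3 12450148488 :=
  goodC (by decide) (by decide) (by decide +kernel) (by decide +kernel) c3_652 nilC

theorem g3_651 : GoodC 8 3 112308138120 :=
  goodC (by decide) (by decide) (by decide +kernel) (by decide +kernel) c3_651 nilC

theorem g3_650 : GoodC 8 3 9228923016 :=
  goodC (by decide) (by decide) (by decide +kernel) (by decide +kernel) c3_650 (consC g3_651 nilC)

theorem g3_649 : GoodC 8 3 1712730248 :=
  goodC (by decide) (by decide) (by decide +kernel) (by decide +kernel) c3_649 (consC g3_650 (consC g3_652 (consC g3_653 nilC)))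

theorem g3_648 : GoodC 8 3 16610898056 :=
  goodC (by decide) (by decide) (by decide +kernel) (by decide +kernel) c3_648 nilC

theorem g3_647 : GoodC 8 3 10168447112 :=
  goodC (by decide) (by decide) (by decide +kernel) (by decide +kernel) c3_647 nilC

theorem g3_646 : GoodC 8 3 112173920392 :=
  goodC (by decide) (by decide) (by decide +kernel) (by decide +kernel) c3_646 nilC

theorem g3_645 : GoodC 8 3 9094705288 :=
  goodC (by decide) (by decide) (by decide +kernel) (by decide +kernel) c3_645 (consC g3_646 nilC)

theorem g3_644 : GoodC 8 3 1578512520 :=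
  goodC (by decide) (by decide) (by decide +kernel) (by decide +kernel) c3_644 (consC g3_645 (consC g3_647 (consC g3_648 nilC)))

theorem g3_643 : GoodC 8 3 16476680328 :=
  goodC (by decide) (by decide) (by decide +kernel) (by decide +kernel) c3_643 nilC

theorem g3_642 : GoodC 8 3 13255454856 :=
  goodC (by decide) (by decide) (by decide +kernel) (by decide +kernel) c3_642 nilC

theorem g3_641 : GoodC 8 3 16342462600 :=
  goodC (by decide) (by decide) (by decide +kernel) (by decide +kernel) c3_641 nilC

theorem g3_640 : GoodC 8 3 129085354120 :=
  goodC (by decide) (by decide) (by decide +kernel) (by decide +kernel) c3_640 nilC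

theorem g3_639 : GoodC 8 3 86135681160 :=
  goodC (by decide) (by decide) (by decide +kernel) (by decide +kernel) c3_639 nilC

theorem g3_638 : GoodC 8 3 8826269832 :=
  goodC (by decide) (by decide) (by decide +kernel) (by decide +kernel) c3_638 (consC g3_639 (consC g3_640 nilC))

theorem g3_637 : GoodC 8 3 1310077064 :=
  goodC (by decide) (by decide) (by decide +kernel) (by decide +kernel) c3_637 (consC g3_638 (consC g3_641 nilC))

theorem g3_636 : GoodC 8 3 236335240 :=
  goodC (by decide) (by decide) (by decide +kernel) (by decide +kernel) c3_636 (consC g3_637 (consC g3_642 (consC g3_643 (consC g3_644 (consC g3_649 (consC g3_654 (consC g3_655 (consC g3_656 nilC))))))))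

theorem g3_635 : GoodC 8 3 16979996808 :=
  goodC (by decide) (by decide) (by decide +kernel) (by decide +kernel) c3_635 nilC

theorem g3_634 : GoodC 8 3 109321793672 :=
  goodC (by decide) (by decide) (by decide +kernel) (by decide +kernel) c3_634 nilC

theorem g3_633 : GoodC 8 3 12685029512 :=
  goodC (by decide) (by decide) (by decide +kernel) (by decide +kernel) c3_633 nilC

theorem g3_632 : GoodC 8 3 11611287688 :=
  goodC (by decide) (by decide) (by decide +kernel) (by decide +kernel) c3_632 nilC

theorem g3_631 : GoodC 8 3 9463804040 :=
  goodC (by decide) (by decide) (by decide +kernel) (by decide +kernel) c3_631 nilC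

theorem g3_630 : GoodC 8 3 1947611272 :=
  goodC (by decide) (by decide) (by decide +kernel) (by decide +kernel) c3_630 (consC g3_631 (consC g3_632 (consC g3_633 (consC g3_634 (consC g3_635 nilC)))))

theorem g3_629 : GoodC 8 3 135762686088 :=
  goodC (by decide) (by decide) (by decide +kernel) (by decide +kernel) c3_629 nilC

theorem g3_628 : GoodC 8 3 118582816904 :=
  goodC (by decide) (by decide) (by decide +kernel) (by decide +kernel) c3_628 nilC

theorem g3_627 : GoodC 8 3 109992882312 :=
  goodC (by decide) (by decide) (by decide +kernel) (by decide +kernel) c3_627 nilC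

theorem g3_626 : GoodC 8 3 15503601800 :=
  goodC (by decide) (by decide) (by decide +kernel) (by decide +kernel) c3_626 (consC g3_627 (consC g3_628 (consC g3_629 nilC)))

theorem g3_625 : GoodC 8 3 1410740360 :=
  goodC (by decide) (by decide) (by decide +kernel) (by decide +kernel) c3_625 nilC

theorem g3_624 : GoodC 8 3 15235166344 :=
  goodC (by decide) (by decide) (by decide +kernel) (by decide +kernel) c3_624 nilC

theorem g3_623 : GoodC 8 3 1276522632 :=
  goodC (by decide) (by decide) (by decide +kernel) (by decide +kernel) c3_623 (consC g3_624 nilC)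

theorem g3_622 : GoodC 8 3 16946442376 :=
  goodC (by decide) (by decide) (by decide +kernel) (by decide +kernel) c3_622 nilC

theorem g3_621 : GoodC 8 3 13725216904 :=
  goodC (by decide) (by decide) (by decide +kernel) (by decide +kernel) c3_621 nilC

theorem g3_620 : GoodC 8 3 12651475080 :=
  goodC (by decide) (by decide) (by decide +kernel) (by decide +kernel) c3_620 nilC

theorem g3_619 : GoodC 8 3 9430249608 :=
  goodC (by decide) (by decide) (by decide +kernel) (by decide +kernel) c3_619 nilC

theorem g3_618 : GoodC 8 3 1914056840 :=
  goodC (by decide) (by decide) (by decide +kernel) (by decide +kernel) c3_618 (consC g3_619 (consC g3_620 (consC g3_621 (consC g3_622 nilC))))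

theorem g3_617 : GoodC 8 3 9161814152 :=
  goodC (by decide) (by decide) (by decide +kernel) (by decide +kernel) c3_617 nilC

theorem g3_616 : GoodC 8 3 15470047368 :=
  goodC (by decide) (by decide) (by decide +kernel) (by decide +kernel) c3_616 nilC

theorem g3_615 : GoodC 8 3 112106811528 :=
  goodC (by decide) (by decide) (by decide +kernel) (by decide +kernel) c3_615 nilC

theorem g3_614 : GoodC 8 3 1511403656 :=
  goodC (by decide) (by decide) (by decide +kernel) (by decide +kernel) c3_614 (consC g3_615 (consC g3_616 nilC))

theorem g3_613 : GoodC 8 3 169226376 :=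
  goodC (by decide) (by decide) (by decide +kernel) (by decide +kernel) c3_613 (consC g3_614 (consC g3_617 (consC g3_618 nilC)))

theorem g3_612 : GoodC 8 3 18231432 :=
  goodC (by decide) (by decide) (by decide +kernel) (by decide +kernel) c3_612 (consC g3_613 (consC g3_623 (consC g3_625 (consC g3_626 (consC g3_630 (consC g3_636 nilC))))))

theorem g3_611 : GoodC 8 3 15009984648 :=
  goodC (by decide) (by decide) (by decide +kernel) (by decide +kernel) c3_611 nilC

theorem g3_610 : GoodC 8 3 13936242824 :=
  goodC (by decide) (by decide) (by decide +kernel) (by decide +kernel) c3_610 nilC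

theorem g3_609 : GoodC 8 3 12862501000 :=
  goodC (by decide) (by decide) (by decide +kernel) (by decide +kernel) c3_609 nilC

theorem g3_608 : GoodC 8 3 11788759176 :=
  goodC (by decide) (by decide) (by decide +kernel) (by decide +kernel) c3_608 nilC

theorem g3_607 : GoodC 8 3 2125082760 :=
  goodC (by decide) (by decide) (by decide +kernel) (by decide +kernel) c3_607 (consC g3_608 (consC g3_609 (consC g3_610 (consC g3_611 nilC))))

theorem g3_606 : GoodC 8 3 16754815112 :=
  goodC (by decide) (by decide) (by decide +kernel) (by decide +kernel) c3_606 nilC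

theorem g3_605 : GoodC 8 3 14607331464 :=
  goodC (by decide) (by decide) (by decide +kernel) (by decide +kernel) c3_605 nilC

theorem g3_604 : GoodC 8 3 16620597384 :=
  goodC (by decide) (by decide) (by decide +kernel) (by decide +kernel) c3_604 nilC

theorem g3_603 : GoodC 8 3 14473113736 :=
  goodC (by decide) (by decide) (by decide +kernel) (by decide +kernel) c3_603 nilC

theorem g3_602 : GoodC 8 3 11251888264 :=
  goodC (by decide) (by decide) (by decide +kernel) (by decide +kernel) c3_602 nilC

theorem g3_601 : GoodC 8 3 1588211848 :=
  goodC (by decide) (by decide) (by decide +kernel) (by decide +kernel) c3_601 (consC g3_602 (consC g3_603 (consC g3_604 nilC)))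

theorem g3_600 : GoodC 8 3 16486379656 :=
  goodC (by decide) (by decide) (by decide +kernel) (by decide +kernel) c3_600 nilC

theorem g3_599 : GoodC 8 3 13265154184 :=
  goodC (by decide) (by decide) (by decide +kernel) (by decide +kernel) c3_599 nilC

theorem g3_598 : GoodC 8 3 1453994120 :=
  goodC (by decide) (by decide) (by decide +kernel) (by decide +kernel) c3_598 (consC g3_599 (consC g3_600 nilC))

theorem g3_597 : GoodC 8 3 1319776392 :=
  goodC (by decide) (by decide) (by decide +kernel) (by decide +kernel) c3_597 nilC

theorem g3_596 : GoodC 8 3 16217944200 :=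
  goodC (by decide) (by decide) (by decide +kernel) (by decide +kernel) c3_596 nilC

theorem g3_595 : GoodC 8 3 1185558664 :=
  goodC (by decide) (by decide) (by decide +kernel) (by decide +kernel) c3_595 (consC g3_596 nilC)

theorem g3_594 : GoodC 8 3 246034568 :=
  goodC (by decide) (by decide) (by decide +kernel) (by decide +kernel) c3_594 (consC g3_595 (consC g3_597 (consC g3_598 (consC g3_601 (consC g3_605 (consC g3_606 (consC g3_607 nilC)))))))

theorem g3_593 : GoodC 8 3 16989696136 :=
  goodC (by decide) (by decide) (by decide +kernel) (by decide +kernel) c3_593 nilC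

theorem g3_592 : GoodC 8 3 14842212488 :=
  goodC (by decide) (by decide) (by decide +kernel) (by decide +kernel) c3_592 nilC

theorem g3_591 : GoodC 8 3 12694728840 :=
  goodC (by decide) (by decide) (by decide +kernel) (by decide +kernel) c3_591 nilC

theorem g3_590 : GoodC 8 3 11620987016 :=
  goodC (by decide) (by decide) (by decide +kernel) (by decide +kernel) c3_590 nilC

theorem g3_589 : GoodC 8 3 1957310600 :=
  goodC (by decide) (by decide) (by decide +kernel) (by decide +kernel) c3_589 (consC g3_590 (consC g3_591 (consC g3_592 (consC g3_593 nilC))))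

theorem g3_588 : GoodC 8 3 118592516232 :=
  goodC (by decide) (by decide) (by decide +kernel) (by decide +kernel) c3_588 nilC

theorem g3_587 : GoodC 8 3 15513301128 :=
  goodC (by decide) (by decide) (by decide +kernel) (by decide +kernel) c3_587 (consC g3_588 nilC)

theorem g3_586 : GoodC 8 3 11218333832 :=
  goodC (by decide) (by decide) (by decide +kernel) (by decide +kernel) c3_586 nilC

theorem g3_585 : GoodC 8 3 16972918920 :=
  goodC (by decide) (by decide) (by decide +kernel) (by decide +kernel) c3_585 nilC

theorem g3_584 : GoodC 8 3 14825435272 :=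
  goodC (by decide) (by decide) (by decide +kernel) (by decide +kernel) c3_584 nilC

theorem g3_583 : GoodC 8 3 13751693448 :=
  goodC (by decide) (by decide) (by decide +kernel) (by decide +kernel) c3_583 nilC

theorem g3_582 : GoodC 8 3 11604209800 :=
  goodC (by decide) (by decide) (by decide +kernel) (by decide +kernel) c3_582 nilC

theorem g3_581 : GoodC 8 3 1940533384 :=
  goodC (by decide) (by decide) (by decide +kernel) (by decide +kernel) c3_581 (consC g3_582 (consC g3_583 (consC g3_584 (consC g3_585 nilC))))

theorem g3_580 : GoodC 8 3 118441521288 :=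
  goodC (by decide) (by decide) (by decide +kernel) (by decide +kernel) c3_580 nilC

theorem g3_579 : GoodC 8 3 13214822536 :=
  goodC (by decide) (by decide) (by decide +kernel) (by decide +kernel) c3_579 nilC

theorem g3_578 : GoodC 8 3 1403662472 :=
  goodC (by decide) (by decide) (by decide +kernel) (by decide +kernel) c3_578 (consC g3_579 (consC g3_580 nilC))

theorem g3_577 : GoodC 8 3 8785637512 :=
  goodC (by decide) (by decide) (by decide +kernel) (by decide +kernel) c3_577 nilC

theorem g3_576 : GoodC 8 3 15093870728 :=
  goodC (by decide) (by decide) (by decide +kernel) (by decide +kernel) c3_576 nilC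

theorem g3_575 : GoodC 8 3 195702920 :=
  goodC (by decide) (by decide) (by decide +kernel) (by decide +kernel) c3_575 (consC g3_576 (consC g3_577 (consC g3_578 (consC g3_581 nilC))))

theorem g3_574 : GoodC 8 3 13718139016 :=
  goodC (by decide) (by decide) (by decide +kernel) (by decide +kernel) c3_574 nilC

theorem g3_573 : GoodC 8 3 12644397192 :=
  goodC (by decide) (by decide) (by decide +kernel) (by decide +kernel) c3_573 nilC

theorem g3_572 : GoodC 8 3 11570655368 :=
  goodC (by decide) (by decide) (by decide +kernel) (by decide +kernel) c3_572 nilC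

theorem g3_571 : GoodC 8 3 9423171720 :=
  goodC (by decide) (by decide) (by decide +kernel) (by decide +kernel) c3_571 nilC

theorem g3_570 : GoodC 8 3 15060316296 :=
  goodC (by decide) (by decide) (by decide +kernel) (by decide +kernel) c3_570 nilC

theorem g3_569 : GoodC 8 3 1101672584 :=
  goodC (by decide) (by decide) (by decide +kernel) (by decide +kernel) c3_569 (consC g3_570 nilC)

theorem g3_568 : GoodC 8 3 162148488 :=
  goodC (by decide) (by decide) (by decide +kernel) (by decide +kernel) c3_568 (consC g3_569 (consC g3_571 (consC g3_572 (consC g3_573 (consC g3_574 nilC)))))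

theorem g3_567 : GoodC 8 3 16922587272 :=
  goodC (by decide) (by decide) (by decide +kernel) (by decide +kernel) c3_567 nilC

theorem g3_566 : GoodC 8 3 13701361800 :=
  goodC (by decide) (by decide) (by decide +kernel) (by decide +kernel) c3_566 nilC

theorem g3_565 : GoodC 8 3 12627619976 :=
  goodC (by decide) (by decide) (by decide +kernel) (by decide +kernel) c3_565 nilC

theorem g3_564 : GoodC 8 3 11553878152 :=
  goodC (by decide) (by decide) (by decide +kernel) (by decide +kernel) c3_564 nilC

theorem g3_563 : GoodC 8 3 1890201736 :=
  goodC (by decide) (by decide) (by decide +kernel) (by decide +kernel) c3_563 (consC g3_564 (consC g3_565 (consC g3_566 (consC g3_567 nilC))))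

theorem g3_562 : GoodC 8 3 118391189640 :=
  goodC (by decide) (by decide) (by decide +kernel) (by decide +kernel) c3_562 nilC

theorem g3_561 : GoodC 8 3 13164490888 :=
  goodC (by decide) (by decide) (by decide +kernel) (by decide +kernel) c3_561 nilC

theorem g3_560 : GoodC 8 3 12090749064 :=
  goodC (by decide) (by decide) (by decide +kernel) (by decide +kernel) c3_560 nilC

theorem g3_559 : GoodC 8 3 145371272 :=
  goodC (by decide) (by decide) (by decide +kernel) (by decide +kernel) c3_559 (consC g3_560 (consC g3_561 (consC g3_562 (consC g3_563 nilC))))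

theorem g3_558 : GoodC 8 3 27930760 :=
  goodC (by decide) (by decide) (by decide +kernel) (by decide +kernel) c3_558 (consC g3_559 (consC g3_568 (consC g3_575 (consC g3_586 (consC g3_587 (consC g3_589 (consC g3_594 nilC)))))))

theorem g3_557 : GoodC 8 3 120081494152 :=
  goodC (by decide) (by decide) (by decide +kernel) (by decide +kernel) c3_557 nilC

theorem g3_556 : GoodC 8 3 17002279048 :=
  goodC (by decide) (by decide) (by decide +kernel) (by decide +kernel) c3_556 (consC g3_557 nilC)

theorem g3_555 : GoodC 8 3 13781053576 :=
  goodC (by decide) (by decide) (by decide +kernel) (by decide +kernel) c3_555 nilC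

theorem g3_554 : GoodC 8 3 132966396040 :=
  goodC (by decide) (by decide) (by decide +kernel) (by decide +kernel) c3_554 nilC

theorem g3_553 : GoodC 8 3 12707311752 :=
  goodC (by decide) (by decide) (by decide +kernel) (by decide +kernel) c3_553 (consC g3_554 nilC)

theorem g3_552 : GoodC 8 3 10559828104 :=
  goodC (by decide) (by decide) (by decide +kernel) (by decide +kernel) c3_552 nilC

theorem g3_551 : GoodC 8 3 9486086280 :=
  goodC (by decide) (by decide) (by decide +kernel) (by decide +kernel) c3_551 nilC

theorem g3_550 : GoodC 8 3 15660101768 :=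
  goodC (by decide) (by decide) (by decide +kernel) (by decide +kernel) c3_550 nilC

theorem g3_549 : GoodC 8 3 124108025992 :=
  goodC (by decide) (by decide) (by decide +kernel) (by decide +kernel) c3_549 nilC

theorem g3_548 : GoodC 8 3 1701458056 :=
  goodC (by decide) (by decide) (by decide +kernel) (by decide +kernel) c3_548 (consC g3_549 (consC g3_550 nilC))

theorem g3_547 : GoodC 8 3 1433022600 :=
  goodC (by decide) (by decide) (by decide +kernel) (by decide +kernel) c3_547 nilC

theorem g3_546 : GoodC 8 3 1298804872 :=
  goodC (by decide) (by decide) (by decide +kernel) (by decide +kernel) c3_546 nilC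

theorem g3_545 : GoodC 8 3 1164587144 :=
  goodC (by decide) (by decide) (by decide +kernel) (by decide +kernel) c3_545 nilC

theorem g3_544 : GoodC 8 3 15727210632 :=
  goodC (by decide) (by decide) (by decide +kernel) (by decide +kernel) c3_544 nilC

theorem g3_543 : GoodC 8 3 12505985160 :=
  goodC (by decide) (by decide) (by decide +kernel) (by decide +kernel) c3_543 nilC

theorem g3_542 : GoodC 8 3 157954184 :=
  goodC (by decide) (by decide) (by decide +kernel) (by decide +kernel) c3_542 (consC g3_543 (consC g3_544 nilC))

theorem g3_541 : GoodC 8 3 135969517704 :=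
  goodC (by decide) (by decide) (by decide +kernel) (by decide +kernel) c3_541 nilC

theorem g3_540 : GoodC 8 3 15710433416 :=
  goodC (by decide) (by decide) (by decide +kernel) (by decide +kernel) c3_540 (consC g3_541 nilC)

theorem g3_539 : GoodC 8 3 13562949768 :=
  goodC (by decide) (by decide) (by decide +kernel) (by decide +kernel) c3_539 nilC

theorem g3_538 : GoodC 8 3 12489207944 :=
  goodC (by decide) (by decide) (by decide +kernel) (by decide +kernel) c3_538 nilC

theorem g3_537 : GoodC 8 3 141176968 :=
  goodC (by decide) (by decide) (by decide +kernel) (by decide +kernel) c3_537 (consC g3_538 (consC g3_539 (consC g3_540 nilC)))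

theorem g3_536 : GoodC 8 3 2764936 :=
  goodC (by decide) (by decide) (by decide +kernel) (by decide +kernel) c3_536 (consC g3_537 (consC g3_542 (consC g3_545 (consC g3_546 (consC g3_547 (consC g3_548 (consC g3_551 (consC g3_552 (consC g3_553 (consC g3_555 (consC g3_556 (consC g3_558 nilC))))))))))))

theorem g3_535 : GoodC 8 3 15009722504 :=
  goodC (by decide) (by decide) (by decide +kernel) (by decide +kernel) c3_535 nilC

theorem g3_534 : GoodC 8 3 12862238856 :=
  goodC (by decide) (by decide) (by decide +kernel) (by decide +kernel) c3_534 nilC

theorem g3_533 : GoodC 8 3 10714755208 :=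
  goodC (by decide) (by decide) (by decide +kernel) (by decide +kernel) c3_533 nilC

theorem g3_532 : GoodC 8 3 9641013384 :=
  goodC (by decide) (by decide) (by decide +kernel) (by decide +kernel) c3_532 nilC

theorem g3_531 : GoodC 8 3 2124820616 :=
  goodC (by decide) (by decide) (by decide +kernel) (by decide +kernel) c3_531 (consC g3_532 (consC g3_533 (consC g3_534 (consC g3_535 nilC))))

theorem g3_530 : GoodC 8 3 16754552968 :=
  goodC (by decide) (by decide) (by decide +kernel) (by decide +kernel) c3_530 nilC

theorem g3_529 : GoodC 8 3 14607069320 :=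
  goodC (by decide) (by decide) (by decide +kernel) (by decide +kernel) c3_529 nilC

theorem g3_528 : GoodC 8 3 1722167432 :=
  goodC (by decide) (by decide) (by decide +kernel) (by decide +kernel) c3_528 (consC g3_529 (consC g3_530 nilC))

theorem g3_527 : GoodC 8 3 16620335240 :=
  goodC (by decide) (by decide) (by decide +kernel) (by decide +kernel) c3_527 nilC

theorem g3_526 : GoodC 8 3 10177884296 :=
  goodC (by decide) (by decide) (by decide +kernel) (by decide +kernel) c3_526 nilC

theorem g3_525 : GoodC 8 3 1587949704 :=
  goodC (by decide) (by decide) (by decide +kernel) (by decide +kernel) c3_525 (consC g3_526 (consC g3_527 nilC))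

theorem g3_524 : GoodC 8 3 1453731976 :=
  goodC (by decide) (by decide) (by decide +kernel) (by decide +kernel) c3_524 nilC

theorem g3_523 : GoodC 8 3 16351899784 :=
  goodC (by decide) (by decide) (by decide +kernel) (by decide +kernel) c3_523 nilC

theorem g3_522 : GoodC 8 3 116209889416 :=
  goodC (by decide) (by decide) (by decide +kernel) (by decide +kernel) c3_522 nilC

theorem g3_521 : GoodC 8 3 13130674312 :=
  goodC (by decide) (by decide) (by decide +kernel) (by decide +kernel) c3_521 (consC g3_522 nilC)

theorem g3_520 : GoodC 8 3 111914922120 :=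
  goodC (by decide) (by decide) (by decide +kernel) (by decide +kernel) c3_520 nilC

theorem g3_519 : GoodC 8 3 16217682056 :=
  goodC (by decide) (by decide) (by decide +kernel) (by decide +kernel) c3_519 nilC

theorem g3_518 : GoodC 8 3 14070198408 :=
  goodC (by decide) (by decide) (by decide +kernel) (by decide +kernel) c3_518 nilC

theorem g3_517 : GoodC 8 3 245772424 :=
  goodC (by decide) (by decide) (by decide +kernel) (by decide +kernel) c3_517 (consC g3_518 (consC g3_519 (consC g3_520 (consC g3_521 (consC g3_523 (consC g3_524 (consC g3_525 (consC g3_528 (consC g3_531 nilC)))))))))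

theorem g3_516 : GoodC 8 3 16989433992 :=
  goodC (by decide) (by decide) (by decide +kernel) (by decide +kernel) c3_516 nilC

theorem g3_515 : GoodC 8 3 12694466696 :=
  goodC (by decide) (by decide) (by decide +kernel) (by decide +kernel) c3_515 nilC

theorem g3_514 : GoodC 8 3 10546983048 :=
  goodC (by decide) (by decide) (by decide +kernel) (by decide +kernel) c3_514 nilC

theorem g3_513 : GoodC 8 3 9473241224 :=
  goodC (by decide) (by decide) (by decide +kernel) (by decide +kernel) c3_513 nilC

theorem g3_512 : GoodC 8 3 15110385800 :=
  goodC (by decide) (by decide) (by decide +kernel) (by decide +kernel) c3_512 nilC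

theorem g3_511 : GoodC 8 3 1151742088 :=
  goodC (by decide) (by decide) (by decide +kernel) (by decide +kernel) c3_511 (consC g3_512 nilC)

theorem g3_510 : GoodC 8 3 212217992 :=
  goodC (by decide) (by decide) (by decide +kernel) (by decide +kernel) c3_510 (consC g3_511 (consC g3_513 (consC g3_514 (consC g3_515 (consC g3_516 nilC)))))

theorem g3_509 : GoodC 8 3 16972656776 :=
  goodC (by decide) (by decide) (by decide +kernel) (by decide +kernel) c3_509 nilC

theorem g3_508 : GoodC 8 3 14825173128 :=
  goodC (by decide) (by decide) (by decide +kernel) (by decide +kernel) c3_508 nilC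

theorem g3_507 : GoodC 8 3 10530205832 :=
  goodC (by decide) (by decide) (by decide +kernel) (by decide +kernel) c3_507 nilC

theorem g3_506 : GoodC 8 3 9456464008 :=
  goodC (by decide) (by decide) (by decide +kernel) (by decide +kernel) c3_506 nilC

theorem g3_505 : GoodC 8 3 1940271240 :=
  goodC (by decide) (by decide) (by decide +kernel) (by decide +kernel) c3_505 (consC g3_506 (consC g3_507 (consC g3_508 (consC g3_509 nilC))))

theorem g3_504 : GoodC 8 3 1403400328 :=
  goodC (by decide) (by decide) (by decide +kernel) (by decide +kernel) c3_504 nilC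

theorem g3_503 : GoodC 8 3 135486910600 :=
  goodC (by decide) (by decide) (by decide +kernel) (by decide +kernel) c3_503 nilC

theorem g3_502 : GoodC 8 3 118307041416 :=
  goodC (by decide) (by decide) (by decide +kernel) (by decide +kernel) c3_502 nilC

theorem g3_501 : GoodC 8 3 15227826312 :=
  goodC (by decide) (by decide) (by decide +kernel) (by decide +kernel) c3_501 (consC g3_502 (consC g3_503 nilC))

theorem g3_500 : GoodC 8 3 949383213192 :=
  goodC (by decide) (by decide) (by decide +kernel) (by decide +kernel) c3_500 nilC

theorem g3_499 : GoodC 8 3 124749492360 :=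
  goodC (by decide) (by decide) (by decide +kernel) (by decide +kernel) c3_499 (consC g3_500 nilC)

theorem g3_498 : GoodC 8 3 8785375368 :=
  goodC (by decide) (by decide) (by decide +kernel) (by decide +kernel) c3_498 nilC

theorem g3_497 : GoodC 8 3 1134964872 :=
  goodC (by decide) (by decide) (by decide +kernel) (by decide +kernel) c3_497 nilC

theorem g3_496 : GoodC 8 3 12660912264 :=
  goodC (by decide) (by decide) (by decide +kernel) (by decide +kernel) c3_496 nilC

theorem g3_495 : GoodC 8 3 10513428616 :=
  goodC (by decide) (by decide) (by decide +kernel) (by decide +kernel) c3_495 nilC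

theorem g3_494 : GoodC 8 3 9439686792 :=
  goodC (by decide) (by decide) (by decide +kernel) (by decide +kernel) c3_494 nilC

theorem g3_493 : GoodC 8 3 1520840840 :=
  goodC (by decide) (by decide) (by decide +kernel) (by decide +kernel) c3_493 nilC

theorem g3_492 : GoodC 8 3 178663560 :=
  goodC (by decide) (by decide) (by decide +kernel) (by decide +kernel) c3_492 (consC g3_493 (consC g3_494 (consC g3_495 (consC g3_496 nilC))))

theorem g3_491 : GoodC 8 3 16922325128 :=
  goodC (by decide) (by decide) (by decide +kernel) (by decide +kernel) c3_491 nilC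

theorem g3_490 : GoodC 8 3 13701099656 :=
  goodC (by decide) (by decide) (by decide +kernel) (by decide +kernel) c3_490 nilC

theorem g3_489 : GoodC 8 3 72756899976 :=
  goodC (by decide) (by decide) (by decide +kernel) (by decide +kernel) c3_489 nilC

theorem g3_488 : GoodC 8 3 12627357832 :=
  goodC (by decide) (by decide) (by decide +kernel) (by decide +kernel) c3_488 (consC g3_489 nilC)

theorem g3_487 : GoodC 8 3 10479874184 :=
  goodC (by decide) (by decide) (by decide +kernel) (by decide +kernel) c3_487 nilC

theorem g3_486 : GoodC 8 3 1889939592 :=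
  goodC (by decide) (by decide) (by decide +kernel) (by decide +kernel) c3_486 (consC g3_487 (consC g3_488 (consC g3_490 (consC g3_491 nilC))))

theorem g3_485 : GoodC 8 3 12090486920 :=
  goodC (by decide) (by decide) (by decide +kernel) (by decide +kernel) c3_485 nilC

theorem g3_484 : GoodC 8 3 145109128 :=
  goodC (by decide) (by decide) (by decide +kernel) (by decide +kernel) c3_484 (consC g3_485 (consC g3_486 nilC))

theorem g3_483 : GoodC 8 3 120074940552 :=
  goodC (by decide) (by decide) (by decide +kernel) (by decide +kernel) c3_483 nilC

theorem g3_482 : GoodC 8 3 16995725448 :=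
  goodC (by decide) (by decide) (by decide +kernel) (by decide +kernel) c3_482 (consC g3_483 nilC)

theorem g3_481 : GoodC 8 3 12700758152 :=
  goodC (by decide) (by decide) (by decide +kernel) (by decide +kernel) c3_481 nilC

theorem g3_480 : GoodC 8 3 11627016328 :=
  goodC (by decide) (by decide) (by decide +kernel) (by decide +kernel) c3_480 nilC

theorem g3_479 : GoodC 8 3 9479532680 :=
  goodC (by decide) (by decide) (by decide +kernel) (by decide +kernel) c3_479 nilC

theorem g3_478 : GoodC 8 3 1963339912 :=
  goodC (by decide) (by decide) (by decide +kernel) (by decide +kernel) c3_478 (consC g3_479 (consC g3_480 (consC g3_481 (consC g3_482 nilC))))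

theorem g3_477 : GoodC 8 3 75783090312 :=
  goodC (by decide) (by decide) (by decide +kernel) (by decide +kernel) c3_477 nilC

theorem g3_476 : GoodC 8 3 15653548168 :=
  goodC (by decide) (by decide) (by decide +kernel) (by decide +kernel) c3_476 (consC g3_477 nilC)

theorem g3_475 : GoodC 8 3 1694904456 :=
  goodC (by decide) (by decide) (by decide +kernel) (by decide +kernel) c3_475 (consC g3_476 nilC)

theorem g3_474 : GoodC 8 3 75648872584 :=
  goodC (by decide) (by decide) (by decide +kernel) (by decide +kernel) c3_474 nilC

theorem g3_473 : GoodC 8 3 15519330440 :=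
  goodC (by decide) (by decide) (by decide +kernel) (by decide +kernel) c3_473 (consC g3_474 nilC)

theorem g3_472 : GoodC 8 3 1560686728 :=
  goodC (by decide) (by decide) (by decide +kernel) (by decide +kernel) c3_472 (consC g3_473 nilC)

theorem g3_471 : GoodC 8 3 135644197000 :=
  goodC (by decide) (by decide) (by decide +kernel) (by decide +kernel) c3_471 nilC

theorem g3_470 : GoodC 8 3 75514654856 :=
  goodC (by decide) (by decide) (by decide +kernel) (by decide +kernel) c3_470 nilC

theorem g3_469 : GoodC 8 3 15385112712 :=
  goodC (by decide) (by decide) (by decide +kernel) (by decide +kernel) c3_469 (consC g3_470 (consC g3_471 nilC))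

theorem g3_468 : GoodC 8 3 75380437128 :=
  goodC (by decide) (by decide) (by decide +kernel) (by decide +kernel) c3_468 nilC

theorem g3_467 : GoodC 8 3 15250894984 :=
  goodC (by decide) (by decide) (by decide +kernel) (by decide +kernel) c3_467 (consC g3_468 nilC)

theorem g3_466 : GoodC 8 3 1292251272 :=
  goodC (by decide) (by decide) (by decide +kernel) (by decide +kernel) c3_466 (consC g3_467 nilC)

theorem g3_465 : GoodC 8 3 135996518536 :=
  goodC (by decide) (by decide) (by decide +kernel) (by decide +kernel) c3_465 nilC

theorem g3_464 : GoodC 8 3 101636780168 :=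
  goodC (by decide) (by decide) (by decide +kernel) (by decide +kernel) c3_464 nilC

theorem g3_463 : GoodC 8 3 15737434248 :=
  goodC (by decide) (by decide) (by decide +kernel) (by decide +kernel) c3_463 (consC g3_464 (consC g3_465 nilC))

theorem g3_462 : GoodC 8 3 13589950600 :=
  goodC (by decide) (by decide) (by decide +kernel) (by decide +kernel) c3_462 nilC

theorem g3_461 : GoodC 8 3 124185358472 :=
  goodC (by decide) (by decide) (by decide +kernel) (by decide +kernel) c3_461 nilC

theorem g3_460 : GoodC 8 3 10368725128 :=
  goodC (by decide) (by decide) (by decide +kernel) (by decide +kernel) c3_460 nilC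

theorem g3_459 : GoodC 8 3 1088137080968 :=
  goodC (by decide) (by decide) (by decide +kernel) (by decide +kernel) c3_459 nilC

theorem g3_458 : GoodC 8 3 126064406664 :=
  goodC (by decide) (by decide) (by decide +kernel) (by decide +kernel) c3_458 (consC g3_459 nilC)

theorem g3_457 : GoodC 8 3 74524799112 :=
  goodC (by decide) (by decide) (by decide +kernel) (by decide +kernel) c3_457 nilC

theorem g3_456 : GoodC 8 3 1005458960520 :=
  goodC (by decide) (by decide) (by decide +kernel) (by decide +kernel) c3_456 nilC

theorem g3_455 : GoodC 8 3 9026547848 :=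
  goodC (by decide) (by decide) (by decide +kernel) (by decide +kernel) c3_455 (consC g3_456 nilC)

theorem g3_454 : GoodC 8 3 1510355080 :=
  goodC (by decide) (by decide) (by decide +kernel) (by decide +kernel) c3_454 (consC g3_455 (consC g3_457 (consC g3_458 nilC)))

theorem g3_453 : GoodC 8 3 168177800 :=
  goodC (by decide) (by decide) (by decide +kernel) (by decide +kernel) c3_453 (consC g3_454 (consC g3_460 (consC g3_461 (consC g3_462 (consC g3_463 nilC)))))

theorem g3_452 : GoodC 8 3 17182856 :=
  goodC (by decide) (by decide) (by decide +kernel) (by decide +kernel) c3_452 (consC g3_453 (consC g3_466 (consC g3_469 (consC g3_472 (consC g3_475 (consC g3_478 nilC))))))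

theorem g3_451 : GoodC 8 3 2502792 :=
  goodC (by decide) (by decide) (by decide +kernel) (by decide +kernel) c3_451 (consC g3_452 (consC g3_484 (consC g3_492 (consC g3_497 (consC g3_498 (consC g3_499 (consC g3_501 (consC g3_504 (consC g3_505 (consC g3_510 (consC g3_517 nilC)))))))))))

theorem g3_450 : GoodC 8 3 100908806280 :=
  goodC (by decide) (by decide) (by decide +kernel) (by decide +kernel) c3_450 nilC

theorem g3_449 : GoodC 8 3 15009460360 :=
  goodC (by decide) (by decide) (by decide +kernel) (by decide +kernel) c3_449 (consC g3_450 nilC)

theorem g3_448 : GoodC 8 3 13935718536 :=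
  goodC (by decide) (by decide) (by decide +kernel) (by decide +kernel) c3_448 nilC

theorem g3_447 : GoodC 8 3 12861976712 :=
  goodC (by decide) (by decide) (by decide +kernel) (by decide +kernel) c3_447 nilC

theorem g3_446 : GoodC 8 3 11788234888 :=
  goodC (by decide) (by decide) (by decide +kernel) (by decide +kernel) c3_446 nilC

theorem g3_445 : GoodC 8 3 9640751240 :=
  goodC (by decide) (by decide) (by decide +kernel) (by decide +kernel) c3_445 nilC

theorem g3_444 : GoodC 8 3 16754290824 :=
  goodC (by decide) (by decide) (by decide +kernel) (by decide +kernel) c3_444 nilC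

theorem g3_443 : GoodC 8 3 14606807176 :=
  goodC (by decide) (by decide) (by decide +kernel) (by decide +kernel) c3_443 nilC

theorem g3_442 : GoodC 8 3 1721905288 :=
  goodC (by decide) (by decide) (by decide +kernel) (by decide +kernel) c3_442 (consC g3_443 (consC g3_444 nilC))

theorem g3_441 : GoodC 8 3 16620073096 :=
  goodC (by decide) (by decide) (by decide +kernel) (by decide +kernel) c3_441 nilC

theorem g3_440 : GoodC 8 3 103593160840 :=
  goodC (by decide) (by decide) (by decide +kernel) (by decide +kernel) c3_440 nilC

theorem g3_439 : GoodC 8 3 9103880328 :=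
  goodC (by decide) (by decide) (by decide +kernel) (by decide +kernel) c3_439 (consC g3_440 nilC)

theorem g3_438 : GoodC 8 3 1587687560 :=
  goodC (by decide) (by decide) (by decide +kernel) (by decide +kernel) c3_438 (consC g3_439 (consC g3_441 nilC))

theorem g3_437 : GoodC 8 3 119565070472 :=
  goodC (by decide) (by decide) (by decide +kernel) (by decide +kernel) c3_437 nilC

theorem g3_436 : GoodC 8 3 16485855368 :=
  goodC (by decide) (by decide) (by decide +kernel) (by decide +kernel) c3_436 (consC g3_437 nilC)

theorem g3_435 : GoodC 8 3 100237717640 :=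
  goodC (by decide) (by decide) (by decide +kernel) (by decide +kernel) c3_435 nilC

theorem g3_434 : GoodC 8 3 14338371720 :=
  goodC (by decide) (by decide) (by decide +kernel) (by decide +kernel) c3_434 (consC g3_435 nilC)

theorem g3_433 : GoodC 8 3 1453469832 :=
  goodC (by decide) (by decide) (by decide +kernel) (by decide +kernel) c3_433 (consC g3_434 (consC g3_436 nilC))

theorem g3_432 : GoodC 8 3 16351637640 :=
  goodC (by decide) (by decide) (by decide +kernel) (by decide +kernel) c3_432 nilC

theorem g3_431 : GoodC 8 3 86144856200 :=
  goodC (by decide) (by decide) (by decide +kernel) (by decide +kernel) c3_431 nilC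

theorem g3_430 : GoodC 8 3 1319252104 :=
  goodC (by decide) (by decide) (by decide +kernel) (by decide +kernel) c3_430 (consC g3_431 (consC g3_432 nilC))

theorem g3_429 : GoodC 8 3 119296635016 :=
  goodC (by decide) (by decide) (by decide +kernel) (by decide +kernel) c3_429 nilC

theorem g3_428 : GoodC 8 3 16217419912 :=
  goodC (by decide) (by decide) (by decide +kernel) (by decide +kernel) c3_428 (consC g3_429 nilC)

theorem g3_427 : GoodC 8 3 116075409544 :=
  goodC (by decide) (by decide) (by decide +kernel) (by decide +kernel) c3_427 nilC

theorem g3_426 : GoodC 8 3 113927925896 :=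
  goodC (by decide) (by decide) (by decide +kernel) (by decide +kernel) c3_426 nilC

theorem g3_425 : GoodC 8 3 10848710792 :=
  goodC (by decide) (by decide) (by decide +kernel) (by decide +kernel) c3_425 (consC g3_426 nilC)

theorem g3_424 : GoodC 8 3 245510280 :=
  goodC (by decide) (by decide) (by decide +kernel) (by decide +kernel) c3_424 (consC g3_425 (consC g3_427 (consC g3_428 (consC g3_430 (consC g3_433 (consC g3_438 (consC g3_442 (consC g3_445 (consC g3_446 (consC g3_447 (consC g3_448 (consC g3_449 nilC))))))))))))

theorem g3_423 : GoodC 8 3 16989171848 :=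
  goodC (by decide) (by decide) (by decide +kernel) (by decide +kernel) c3_423 nilC

theorem g3_422 : GoodC 8 3 12694204552 :=
  goodC (by decide) (by decide) (by decide +kernel) (by decide +kernel) c3_422 nilC

theorem g3_421 : GoodC 8 3 10546720904 :=
  goodC (by decide) (by decide) (by decide +kernel) (by decide +kernel) c3_421 nilC

theorem g3_420 : GoodC 8 3 9472979080 :=
  goodC (by decide) (by decide) (by decide +kernel) (by decide +kernel) c3_420 nilC

theorem g3_419 : GoodC 8 3 1956786312 :=
  goodC (by decide) (by decide) (by decide +kernel) (by decide +kernel) c3_419 (consC g3_420 (consC g3_421 (consC g3_422 (consC g3_423 nilC))))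

theorem g3_418 : GoodC 8 3 12157333640 :=
  goodC (by decide) (by decide) (by decide +kernel) (by decide +kernel) c3_418 nilC

theorem g3_417 : GoodC 8 3 211955848 :=
  goodC (by decide) (by decide) (by decide +kernel) (by decide +kernel) c3_417 (consC g3_418 (consC g3_419 nilC))

theorem g3_416 : GoodC 8 3 77101936776 :=
  goodC (by decide) (by decide) (by decide +kernel) (by decide +kernel) c3_416 nilC

theorem g3_415 : GoodC 8 3 16972394632 :=
  goodC (by decide) (by decide) (by decide +kernel) (by decide +kernel) c3_415 (consC g3_416 nilC)

theorem g3_414 : GoodC 8 3 74954453128 :=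
  goodC (by decide) (by decide) (by decide +kernel) (by decide +kernel) c3_414 nilC

theorem g3_413 : GoodC 8 3 14824910984 :=
  goodC (by decide) (by decide) (by decide +kernel) (by decide +kernel) c3_413 (consC g3_414 nilC)

theorem g3_412 : GoodC 8 3 11603685512 :=
  goodC (by decide) (by decide) (by decide +kernel) (by decide +kernel) c3_412 nilC

theorem g3_411 : GoodC 8 3 10529943688 :=
  goodC (by decide) (by decide) (by decide +kernel) (by decide +kernel) c3_411 nilC

theorem g3_410 : GoodC 8 3 86765613192 :=
  goodC (by decide) (by decide) (by decide +kernel) (by decide +kernel) c3_410 nilC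

theorem g3_409 : GoodC 8 3 9456201864 :=
  goodC (by decide) (by decide) (by decide +kernel) (by decide +kernel) c3_409 (consC g3_410 nilC)

theorem g3_408 : GoodC 8 3 118440997000 :=
  goodC (by decide) (by decide) (by decide +kernel) (by decide +kernel) c3_408 nilC

theorem g3_407 : GoodC 8 3 15361781896 :=
  goodC (by decide) (by decide) (by decide +kernel) (by decide +kernel) c3_407 (consC g3_408 nilC)

theorem g3_406 : GoodC 8 3 1403138184 :=
  goodC (by decide) (by decide) (by decide +kernel) (by decide +kernel) c3_406 (consC g3_407 nilC)

theorem g3_405 : GoodC 8 3 8785113224 :=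
  goodC (by decide) (by decide) (by decide +kernel) (by decide +kernel) c3_405 nilC

theorem g3_404 : GoodC 8 3 1268920456 :=
  goodC (by decide) (by decide) (by decide +kernel) (by decide +kernel) c3_404 (consC g3_405 nilC)

theorem g3_403 : GoodC 8 3 135352430728 :=
  goodC (by decide) (by decide) (by decide +kernel) (by decide +kernel) c3_403 nilC

theorem g3_402 : GoodC 8 3 599208898696 :=
  goodC (by decide) (by decide) (by decide +kernel) (by decide +kernel) c3_402 nilC

theorem g3_401 : GoodC 8 3 118172561544 :=
  goodC (by decide) (by decide) (by decide +kernel) (by decide +kernel) c3_401 (consC g3_402 nilC)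

theorem g3_400 : GoodC 8 3 83812823176 :=
  goodC (by decide) (by decide) (by decide +kernel) (by decide +kernel) c3_400 nilC

theorem g3_399 : GoodC 8 3 15093346440 :=
  goodC (by decide) (by decide) (by decide +kernel) (by decide +kernel) c3_399 (consC g3_400 (consC g3_401 (consC g3_403 nilC)))

theorem g3_398 : GoodC 8 3 1086687686792 :=
  goodC (by decide) (by decide) (by decide +kernel) (by decide +kernel) c3_398 nilC

theorem g3_397 : GoodC 8 3 949248733320 :=
  goodC (by decide) (by decide) (by decide +kernel) (by decide +kernel) c3_397 nilC

theorem g3_396 : GoodC 8 3 811809779848 :=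
  goodC (by decide) (by decide) (by decide +kernel) (by decide +kernel) c3_396 nilC

theorem g3_395 : GoodC 8 3 124615012488 :=
  goodC (by decide) (by decide) (by decide +kernel) (by decide +kernel) c3_395 (consC g3_396 (consC g3_397 (consC g3_398 nilC)))

theorem g3_394 : GoodC 8 3 122467528840 :=
  goodC (by decide) (by decide) (by decide +kernel) (by decide +kernel) c3_394 nilC

theorem g3_393 : GoodC 8 3 10798379144 :=
  goodC (by decide) (by decide) (by decide +kernel) (by decide +kernel) c3_393 (consC g3_394 nilC)

theorem g3_392 : GoodC 8 3 195178632 :=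
  goodC (by decide) (by decide) (by decide +kernel) (by decide +kernel) c3_392 (consC g3_393 (consC g3_395 (consC g3_399 (consC g3_404 (consC g3_406 (consC g3_409 (consC g3_411 (consC g3_412 (consC g3_413 (consC g3_415 nilC))))))))))

theorem g3_391 : GoodC 8 3 16955617416 :=
  goodC (by decide) (by decide) (by decide +kernel) (by decide +kernel) c3_391 nilC

theorem g3_390 : GoodC 8 3 14808133768 :=
  goodC (by decide) (by decide) (by decide +kernel) (by decide +kernel) c3_390 nilC

theorem g3_389 : GoodC 8 3 13734391944 :=
  goodC (by decide) (by decide) (by decide +kernel) (by decide +kernel) c3_389 nilC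

theorem g3_388 : GoodC 8 3 12660650120 :=
  goodC (by decide) (by decide) (by decide +kernel) (by decide +kernel) c3_388 nilC

theorem g3_387 : GoodC 8 3 9439424648 :=
  goodC (by decide) (by decide) (by decide +kernel) (by decide +kernel) c3_387 nilC

theorem g3_386 : GoodC 8 3 15479222408 :=
  goodC (by decide) (by decide) (by decide +kernel) (by decide +kernel) c3_386 nilC

theorem g3_385 : GoodC 8 3 1520578696 :=
  goodC (by decide) (by decide) (by decide +kernel) (by decide +kernel) c3_385 (consC g3_386 nilC)

theorem g3_384 : GoodC 8 3 16938840200 :=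
  goodC (by decide) (by decide) (by decide +kernel) (by decide +kernel) c3_384 nilC

theorem g3_383 : GoodC 8 3 14791356552 :=
  goodC (by decide) (by decide) (by decide +kernel) (by decide +kernel) c3_383 nilC

theorem g3_382 : GoodC 8 3 12643872904 :=
  goodC (by decide) (by decide) (by decide +kernel) (by decide +kernel) c3_382 nilC

theorem g3_381 : GoodC 8 3 9422647432 :=
  goodC (by decide) (by decide) (by decide +kernel) (by decide +kernel) c3_381 nilC

theorem g3_380 : GoodC 8 3 1906454664 :=
  goodC (by decide) (by decide) (by decide +kernel) (by decide +kernel) c3_380 (consC g3_381 (consC g3_382 (consC g3_383 (consC g3_384 nilC))))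

theorem g3_379 : GoodC 8 3 135318876296 :=
  goodC (by decide) (by decide) (by decide +kernel) (by decide +kernel) c3_379 nilC

theorem g3_378 : GoodC 8 3 118139007112 :=
  goodC (by decide) (by decide) (by decide +kernel) (by decide +kernel) c3_378 nilC

theorem g3_377 : GoodC 8 3 100959137928 :=
  goodC (by decide) (by decide) (by decide +kernel) (by decide +kernel) c3_377 nilC

theorem g3_376 : GoodC 8 3 15059792008 :=
  goodC (by decide) (by decide) (by decide +kernel) (by decide +kernel) c3_376 (consC g3_377 (consC g3_378 (consC g3_379 nilC)))

theorem g3_375 : GoodC 8 3 115991523464 :=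
  goodC (by decide) (by decide) (by decide +kernel) (by decide +kernel) c3_375 nilC

theorem g3_374 : GoodC 8 3 12912308360 :=
  goodC (by decide) (by decide) (by decide +kernel) (by decide +kernel) c3_374 (consC g3_375 nilC)

theorem g3_373 : GoodC 8 3 809628741768 :=
  goodC (by decide) (by decide) (by decide +kernel) (by decide +kernel) c3_373 nilC

theorem g3_372 : GoodC 8 3 122433974408 :=
  goodC (by decide) (by decide) (by decide +kernel) (by decide +kernel) c3_372 (consC g3_373 nilC)

theorem g3_371 : GoodC 8 3 577700507784 :=
  goodC (by decide) (by decide) (by decide +kernel) (by decide +kernel) c3_371 nilC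

theorem g3_370 : GoodC 8 3 27406472 :=
  goodC (by decide) (by decide) (by decide +kernel) (by decide +kernel) c3_370 (consC g3_371 (consC g3_372 (consC g3_374 (consC g3_376 (consC g3_380 (consC g3_385 (consC g3_387 (consC g3_388 (consC g3_389 (consC g3_390 (consC g3_391 (consC g3_392 (consC g3_417 (consC g3_424 nilC))))))))))))))

theorem g3_369 : GoodC 8 3 102899003528 :=
  goodC (by decide) (by decide) (by decide +kernel) (by decide +kernel) c3_369 nilC

theorem g3_368 : GoodC 8 3 16999657608 :=
  goodC (by decide) (by decide) (by decide +kernel) (by decide +kernel) c3_368 (consC g3_369 nilC)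

theorem g3_367 : GoodC 8 3 12704690312 :=
  goodC (by decide) (by decide) (by decide +kernel) (by decide +kernel) c3_367 nilC

theorem g3_366 : GoodC 8 3 11630948488 :=
  goodC (by decide) (by decide) (by decide +kernel) (by decide +kernel) c3_366 nilC

theorem g3_365 : GoodC 8 3 1967272072 :=
  goodC (by decide) (by decide) (by decide +kernel) (by decide +kernel) c3_365 (consC g3_366 (consC g3_367 (consC g3_368 nilC)))

theorem g3_364 : GoodC 8 3 92966891656 :=
  goodC (by decide) (by decide) (by decide +kernel) (by decide +kernel) c3_364 nilC

theorem g3_363 : GoodC 8 3 15657480328 :=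
  goodC (by decide) (by decide) (by decide +kernel) (by decide +kernel) c3_363 (consC g3_364 nilC)

theorem g3_362 : GoodC 8 3 1698836616 :=
  goodC (by decide) (by decide) (by decide +kernel) (by decide +kernel) c3_362 (consC g3_363 nilC)

theorem g3_361 : GoodC 8 3 135782346888 :=
  goodC (by decide) (by decide) (by decide +kernel) (by decide +kernel) c3_361 nilC

theorem g3_360 : GoodC 8 3 92832673928 :=
  goodC (by decide) (by decide) (by decide +kernel) (by decide +kernel) c3_360 nilC

theorem g3_359 : GoodC 8 3 15523262600 :=
  goodC (by decide) (by decide) (by decide +kernel) (by decide +kernel) c3_359 (consC g3_360 (consC g3_361 nilC))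

theorem g3_358 : GoodC 8 3 103570092168 :=
  goodC (by decide) (by decide) (by decide +kernel) (by decide +kernel) c3_358 nilC

theorem g3_357 : GoodC 8 3 1564618888 :=
  goodC (by decide) (by decide) (by decide +kernel) (by decide +kernel) c3_357 (consC g3_358 (consC g3_359 nilC))

theorem g3_356 : GoodC 8 3 1296183432 :=
  goodC (by decide) (by decide) (by decide +kernel) (by decide +kernel) c3_356 nilC

theorem g3_355 : GoodC 8 3 101019955336 :=
  goodC (by decide) (by decide) (by decide +kernel) (by decide +kernel) c3_355 nilC

theorem g3_354 : GoodC 8 3 15120609416 :=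
  goodC (by decide) (by decide) (by decide +kernel) (by decide +kernel) c3_354 (consC g3_355 nilC)

theorem g3_353 : GoodC 8 3 136017227912 :=
  goodC (by decide) (by decide) (by decide +kernel) (by decide +kernel) c3_353 nilC

theorem g3_352 : GoodC 8 3 101657489544 :=
  goodC (by decide) (by decide) (by decide +kernel) (by decide +kernel) c3_352 nilC

theorem g3_351 : GoodC 8 3 75887685768 :=
  goodC (by decide) (by decide) (by decide +kernel) (by decide +kernel) c3_351 nilC

theorem g3_350 : GoodC 8 3 15758143624 :=
  goodC (by decide) (by decide) (by decide +kernel) (by decide +kernel) c3_350 (consC g3_351 (consC g3_352 (consC g3_353 nilC)))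

theorem g3_349 : GoodC 8 3 13610659976 :=
  goodC (by decide) (by decide) (by decide +kernel) (by decide +kernel) c3_349 nilC

theorem g3_348 : GoodC 8 3 10389434504 :=
  goodC (by decide) (by decide) (by decide +kernel) (by decide +kernel) c3_348 nilC

theorem g3_347 : GoodC 8 3 120984842376 :=
  goodC (by decide) (by decide) (by decide +kernel) (by decide +kernel) c3_347 nilC

theorem g3_346 : GoodC 8 3 125816680584 :=
  goodC (by decide) (by decide) (by decide +kernel) (by decide +kernel) c3_346 nilC

theorem g3_345 : GoodC 8 3 1262629000 :=
  goodC (by decide) (by decide) (by decide +kernel) (by decide +kernel) c3_345 (consC g3_346 nilC)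

theorem g3_344 : GoodC 8 3 1087755137160 :=
  goodC (by decide) (by decide) (by decide +kernel) (by decide +kernel) c3_344 nilC

theorem g3_343 : GoodC 8 3 125682462856 :=
  goodC (by decide) (by decide) (by decide +kernel) (by decide +kernel) c3_343 (consC g3_344 nilC)

theorem g3_342 : GoodC 8 3 108502593672 :=
  goodC (by decide) (by decide) (by decide +kernel) (by decide +kernel) c3_342 nilC

theorem g3_341 : GoodC 8 3 1009371984008 :=
  goodC (by decide) (by decide) (by decide +kernel) (by decide +kernel) c3_341 nilC

theorem g3_340 : GoodC 8 3 12939571336 :=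
  goodC (by decide) (by decide) (by decide +kernel) (by decide +kernel) c3_340 (consC g3_341 nilC)

theorem g3_339 : GoodC 8 3 1128411272 :=
  goodC (by decide) (by decide) (by decide +kernel) (by decide +kernel) c3_339 (consC g3_340 (consC g3_342 (consC g3_343 nilC)))

theorem g3_338 : GoodC 8 3 188887176 :=
  goodC (by decide) (by decide) (by decide +kernel) (by decide +kernel) c3_338 (consC g3_339 (consC g3_345 (consC g3_347 (consC g3_348 (consC g3_349 (consC g3_350 nilC))))))

theorem g3_337 : GoodC 8 3 405640 :=
  goodC (by decide) (by decide) (by decide +kernel) (by decide +kernel) c3_337 (consC g3_338 (consC g3_354 (consC g3_356 (consC g3_357 (consC g3_362 (consC g3_365 (consC g3_370 (consC g3_451 (consC g3_536 (consC g3_612 (consC g3_661 (consC g3_662 (consC g3_663 (consC g3_666 (consC g3_669 (consC g3_676 (consC g3_688 (consC g3_711 (consC g3_753 (consC g3_825 nilC))))))))))))))))))))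

theorem g3_336 : GoodC 8 3 109499723912 :=
  goodC (by decide) (by decide) (by decide +kernel) (by decide +kernel) c3_336 nilC

theorem g3_335 : GoodC 8 3 15010443400 :=
  goodC (by decide) (by decide) (by decide +kernel) (by decide +kernel) c3_335 (consC g3_336 nilC)

theorem g3_334 : GoodC 8 3 13936701576 :=
  goodC (by decide) (by decide) (by decide +kernel) (by decide +kernel) c3_334 nilC

theorem g3_333 : GoodC 8 3 12862959752 :=
  goodC (by decide) (by decide) (by decide +kernel) (by decide +kernel) c3_333 nilC

theorem g3_332 : GoodC 8 3 11789217928 :=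
  goodC (by decide) (by decide) (by decide +kernel) (by decide +kernel) c3_332 nilC

theorem g3_331 : GoodC 8 3 9641734280 :=
  goodC (by decide) (by decide) (by decide +kernel) (by decide +kernel) c3_331 nilC

theorem g3_330 : GoodC 8 3 119834488968 :=
  goodC (by decide) (by decide) (by decide +kernel) (by decide +kernel) c3_330 nilC

theorem g3_329 : GoodC 8 3 16755273864 :=
  goodC (by decide) (by decide) (by decide +kernel) (by decide +kernel) c3_329 (consC g3_330 nilC)

theorem g3_328 : GoodC 8 3 11386564744 :=
  goodC (by decide) (by decide) (by decide +kernel) (by decide +kernel) c3_328 nilC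

theorem g3_327 : GoodC 8 3 10312822920 :=
  goodC (by decide) (by decide) (by decide +kernel) (by decide +kernel) c3_327 nilC

theorem g3_326 : GoodC 8 3 9239081096 :=
  goodC (by decide) (by decide) (by decide +kernel) (by decide +kernel) c3_326 nilC

theorem g3_325 : GoodC 8 3 1722888328 :=
  goodC (by decide) (by decide) (by decide +kernel) (by decide +kernel) c3_325 (consC g3_326 (consC g3_327 (consC g3_328 (consC g3_329 nilC))))

theorem g3_324 : GoodC 8 3 16621056136 :=
  goodC (by decide) (by decide) (by decide +kernel) (by decide +kernel) c3_324 nilC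

theorem g3_323 : GoodC 8 3 14473572488 :=
  goodC (by decide) (by decide) (by decide +kernel) (by decide +kernel) c3_323 nilC

theorem g3_322 : GoodC 8 3 16486838408 :=
  goodC (by decide) (by decide) (by decide +kernel) (by decide +kernel) c3_322 nilC

theorem g3_321 : GoodC 8 3 14339354760 :=
  goodC (by decide) (by decide) (by decide +kernel) (by decide +kernel) c3_321 nilC

theorem g3_320 : GoodC 8 3 1454452872 :=
  goodC (by decide) (by decide) (by decide +kernel) (by decide +kernel) c3_320 (consC g3_321 (consC g3_322 nilC))

theorem g3_319 : GoodC 8 3 16352620680 :=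
  goodC (by decide) (by decide) (by decide +kernel) (by decide +kernel) c3_319 nilC

theorem g3_318 : GoodC 8 3 8836427912 :=
  goodC (by decide) (by decide) (by decide +kernel) (by decide +kernel) c3_318 nilC

theorem g3_317 : GoodC 8 3 1320235144 :=
  goodC (by decide) (by decide) (by decide +kernel) (by decide +kernel) c3_317 (consC g3_318 (consC g3_319 nilC))

theorem g3_316 : GoodC 8 3 16218402952 :=
  goodC (by decide) (by decide) (by decide +kernel) (by decide +kernel) c3_316 nilC

theorem g3_315 : GoodC 8 3 10849693832 :=
  goodC (by decide) (by decide) (by decide +kernel) (by decide +kernel) c3_315 nilC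

theorem g3_314 : GoodC 8 3 1186017416 :=
  goodC (by decide) (by decide) (by decide +kernel) (by decide +kernel) c3_314 (consC g3_315 (consC g3_316 nilC))

theorem g3_313 : GoodC 8 3 246493320 :=
  goodC (by decide) (by decide) (by decide +kernel) (by decide +kernel) c3_313 (consC g3_314 (consC g3_317 (consC g3_320 (consC g3_323 (consC g3_324 (consC g3_325 (consC g3_331 (consC g3_332 (consC g3_333 (consC g3_334 (consC g3_335 nilC)))))))))))

theorem g3_312 : GoodC 8 3 16973377672 :=
  goodC (by decide) (by decide) (by decide +kernel) (by decide +kernel) c3_312 nilC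

theorem g3_311 : GoodC 8 3 14825894024 :=
  goodC (by decide) (by decide) (by decide +kernel) (by decide +kernel) c3_311 nilC

theorem g3_310 : GoodC 8 3 13752152200 :=
  goodC (by decide) (by decide) (by decide +kernel) (by decide +kernel) c3_310 nilC

theorem g3_309 : GoodC 8 3 11604668552 :=
  goodC (by decide) (by decide) (by decide +kernel) (by decide +kernel) c3_309 nilC

theorem g3_308 : GoodC 8 3 15631200392 :=
  goodC (by decide) (by decide) (by decide +kernel) (by decide +kernel) c3_308 nilC

theorem g3_307 : GoodC 8 3 1672556680 :=
  goodC (by decide) (by decide) (by decide +kernel) (by decide +kernel) c3_307 (consC g3_308 nilC)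

theorem g3_306 : GoodC 8 3 16956600456 :=
  goodC (by decide) (by decide) (by decide +kernel) (by decide +kernel) c3_306 nilC

theorem g3_305 : GoodC 8 3 14809116808 :=
  goodC (by decide) (by decide) (by decide +kernel) (by decide +kernel) c3_305 nilC

theorem g3_304 : GoodC 8 3 91044786312 :=
  goodC (by decide) (by decide) (by decide +kernel) (by decide +kernel) c3_304 nilC

theorem g3_303 : GoodC 8 3 13735374984 :=
  goodC (by decide) (by decide) (by decide +kernel) (by decide +kernel) c3_303 (consC g3_304 nilC)

theorem g3_302 : GoodC 8 3 9440407688 :=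
  goodC (by decide) (by decide) (by decide +kernel) (by decide +kernel) c3_302 nilC

theorem g3_301 : GoodC 8 3 15480205448 :=
  goodC (by decide) (by decide) (by decide +kernel) (by decide +kernel) c3_301 nilC

theorem g3_300 : GoodC 8 3 125001871496 :=
  goodC (by decide) (by decide) (by decide +kernel) (by decide +kernel) c3_300 nilC

theorem g3_299 : GoodC 8 3 1521561736 :=
  goodC (by decide) (by decide) (by decide +kernel) (by decide +kernel) c3_299 (consC g3_300 (consC g3_301 nilC))

theorem g3_298 : GoodC 8 3 179384456 :=
  goodC (by decide) (by decide) (by decide +kernel) (by decide +kernel) c3_298 (consC g3_299 (consC g3_302 (consC g3_303 (consC g3_305 (consC g3_306 nilC)))))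

theorem g3_297 : GoodC 8 3 16939823240 :=
  goodC (by decide) (by decide) (by decide +kernel) (by decide +kernel) c3_297 nilC

theorem g3_296 : GoodC 8 3 13718597768 :=
  goodC (by decide) (by decide) (by decide +kernel) (by decide +kernel) c3_296 nilC

theorem g3_295 : GoodC 8 3 11571114120 :=
  goodC (by decide) (by decide) (by decide +kernel) (by decide +kernel) c3_295 nilC

theorem g3_294 : GoodC 8 3 1907437704 :=
  goodC (by decide) (by decide) (by decide +kernel) (by decide +kernel) c3_294 (consC g3_295 (consC g3_296 (consC g3_297 nilC)))

theorem g3_293 : GoodC 8 3 15060775048 :=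
  goodC (by decide) (by decide) (by decide +kernel) (by decide +kernel) c3_293 nilC

theorem g3_292 : GoodC 8 3 16923046024 :=
  goodC (by decide) (by decide) (by decide +kernel) (by decide +kernel) c3_292 nilC

theorem g3_291 : GoodC 8 3 13701820552 :=
  goodC (by decide) (by decide) (by decide +kernel) (by decide +kernel) c3_291 nilC

theorem g3_290 : GoodC 8 3 11554336904 :=
  goodC (by decide) (by decide) (by decide +kernel) (by decide +kernel) c3_290 nilC

theorem g3_289 : GoodC 8 3 10480595080 :=
  goodC (by decide) (by decide) (by decide +kernel) (by decide +kernel) c3_289 nilC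

theorem g3_288 : GoodC 8 3 15312433288 :=
  goodC (by decide) (by decide) (by decide +kernel) (by decide +kernel) c3_288 nilC

theorem g3_287 : GoodC 8 3 1353789576 :=
  goodC (by decide) (by decide) (by decide +kernel) (by decide +kernel) c3_287 (consC g3_288 nilC)

theorem g3_286 : GoodC 8 3 145830024 :=
  goodC (by decide) (by decide) (by decide +kernel) (by decide +kernel) c3_286 (consC g3_287 (consC g3_289 (consC g3_290 (consC g3_291 (consC g3_292 nilC)))))

theorem g3_285 : GoodC 8 3 28389512 :=
  goodC (by decide) (by decide) (by decide +kernel) (by decide +kernel) c3_285 (consC g3_286 (consC g3_293 (consC g3_294 (consC g3_298 (consC g3_307 (consC g3_309 (consC g3_310 (consC g3_311 (consC g3_312 (consC g3_313 nilC))))))))))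

theorem g3_284 : GoodC 8 3 17002737800 :=
  goodC (by decide) (by decide) (by decide +kernel) (by decide +kernel) c3_284 nilC

theorem g3_283 : GoodC 8 3 13781512328 :=
  goodC (by decide) (by decide) (by decide +kernel) (by decide +kernel) c3_283 nilC

theorem g3_282 : GoodC 8 3 12707770504 :=
  goodC (by decide) (by decide) (by decide +kernel) (by decide +kernel) c3_282 nilC

theorem g3_281 : GoodC 8 3 1970352264 :=
  goodC (by decide) (by decide) (by decide +kernel) (by decide +kernel) c3_281 (consC g3_282 (consC g3_283 (consC g3_284 nilC)))

theorem g3_280 : GoodC 8 3 1701916808 :=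
  goodC (by decide) (by decide) (by decide +kernel) (by decide +kernel) c3_280 nilC

theorem g3_279 : GoodC 8 3 15392125064 :=
  goodC (by decide) (by decide) (by decide +kernel) (by decide +kernel) c3_279 nilC

theorem g3_278 : GoodC 8 3 1433481352 :=
  goodC (by decide) (by decide) (by decide +kernel) (by decide +kernel) c3_278 (consC g3_279 nilC)

theorem g3_277 : GoodC 8 3 15257907336 :=
  goodC (by decide) (by decide) (by decide +kernel) (by decide +kernel) c3_277 nilC

theorem g3_276 : GoodC 8 3 15123689608 :=
  goodC (by decide) (by decide) (by decide +kernel) (by decide +kernel) c3_276 nilC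

theorem g3_275 : GoodC 8 3 1165045896 :=
  goodC (by decide) (by decide) (by decide +kernel) (by decide +kernel) c3_275 (consC g3_276 nilC)

theorem g3_274 : GoodC 8 3 24195208 :=
  goodC (by decide) (by decide) (by decide +kernel) (by decide +kernel) c3_274 (consC g3_275 (consC g3_277 (consC g3_278 (consC g3_280 (consC g3_281 nilC)))))

theorem g3_273 : GoodC 8 3 16998543496 :=
  goodC (by decide) (by decide) (by decide +kernel) (by decide +kernel) c3_273 nilC

theorem g3_272 : GoodC 8 3 10556092552 :=
  goodC (by decide) (by decide) (by decide +kernel) (by decide +kernel) c3_272 nilC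

theorem g3_271 : GoodC 8 3 9482350728 :=
  goodC (by decide) (by decide) (by decide +kernel) (by decide +kernel) c3_271 nilC

theorem g3_270 : GoodC 8 3 1966157960 :=
  goodC (by decide) (by decide) (by decide +kernel) (by decide +kernel) c3_270 (consC g3_271 (consC g3_272 (consC g3_273 nilC)))

theorem g3_269 : GoodC 8 3 15656366216 :=
  goodC (by decide) (by decide) (by decide +kernel) (by decide +kernel) c3_269 nilC

theorem g3_268 : GoodC 8 3 1697722504 :=
  goodC (by decide) (by decide) (by decide +kernel) (by decide +kernel) c3_268 (consC g3_269 nilC)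

theorem g3_267 : GoodC 8 3 1563504776 :=
  goodC (by decide) (by decide) (by decide +kernel) (by decide +kernel) c3_267 nilC

theorem g3_266 : GoodC 8 3 1429287048 :=
  goodC (by decide) (by decide) (by decide +kernel) (by decide +kernel) c3_266 nilC

theorem g3_265 : GoodC 8 3 135378579592 :=
  goodC (by decide) (by decide) (by decide +kernel) (by decide +kernel) c3_265 nilC

theorem g3_264 : GoodC 8 3 15119495304 :=
  goodC (by decide) (by decide) (by decide +kernel) (by decide +kernel) c3_264 (consC g3_265 nilC)

theorem g3_263 : GoodC 8 3 135965782152 :=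
  goodC (by decide) (by decide) (by decide +kernel) (by decide +kernel) c3_263 nilC

theorem g3_262 : GoodC 8 3 75836240008 :=
  goodC (by decide) (by decide) (by decide +kernel) (by decide +kernel) c3_262 nilC

theorem g3_261 : GoodC 8 3 15706697864 :=
  goodC (by decide) (by decide) (by decide +kernel) (by decide +kernel) c3_261 (consC g3_262 (consC g3_263 nilC))

theorem g3_260 : GoodC 8 3 73688756360 :=
  goodC (by decide) (by decide) (by decide +kernel) (by decide +kernel) c3_260 nilC

theorem g3_259 : GoodC 8 3 13559214216 :=
  goodC (by decide) (by decide) (by decide +kernel) (by decide +kernel) c3_259 (consC g3_260 nilC)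

theorem g3_258 : GoodC 8 3 11411730568 :=
  goodC (by decide) (by decide) (by decide +kernel) (by decide +kernel) c3_258 nilC

theorem g3_257 : GoodC 8 3 125899452552 :=
  goodC (by decide) (by decide) (by decide +kernel) (by decide +kernel) c3_257 nilC

theorem g3_256 : GoodC 8 3 1345400968 :=
  goodC (by decide) (by decide) (by decide +kernel) (by decide +kernel) c3_256 (consC g3_257 nilC)

theorem g3_255 : GoodC 8 3 137441416 :=
  goodC (by decide) (by decide) (by decide +kernel) (by decide +kernel) c3_255 (consC g3_256 (consC g3_258 (consC g3_259 (consC g3_261 nilC))))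

theorem g3_254 : GoodC 8 3 16996446344 :=
  goodC (by decide) (by decide) (by decide +kernel) (by decide +kernel) c3_254 nilC

theorem g3_253 : GoodC 8 3 11627737224 :=
  goodC (by decide) (by decide) (by decide +kernel) (by decide +kernel) c3_253 nilC

theorem g3_252 : GoodC 8 3 9480253576 :=
  goodC (by decide) (by decide) (by decide +kernel) (by decide +kernel) c3_252 nilC

theorem g3_251 : GoodC 8 3 1964060808 :=
  goodC (by decide) (by decide) (by decide +kernel) (by decide +kernel) c3_251 (consC g3_252 (consC g3_253 (consC g3_254 nilC)))

theorem g3_250 : GoodC 8 3 15654269064 :=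
  goodC (by decide) (by decide) (by decide +kernel) (by decide +kernel) c3_250 nilC

theorem g3_249 : GoodC 8 3 1561407624 :=
  goodC (by decide) (by decide) (by decide +kernel) (by decide +kernel) c3_249 nilC

theorem g3_248 : GoodC 8 3 135644917896 :=
  goodC (by decide) (by decide) (by decide +kernel) (by decide +kernel) c3_248 nilC

theorem g3_247 : GoodC 8 3 15385833608 :=
  goodC (by decide) (by decide) (by decide +kernel) (by decide +kernel) c3_247 (consC g3_248 nilC)

theorem g3_246 : GoodC 8 3 15251615880 :=
  goodC (by decide) (by decide) (by decide +kernel) (by decide +kernel) c3_246 nilC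

theorem g3_245 : GoodC 8 3 1292972168 :=
  goodC (by decide) (by decide) (by decide +kernel) (by decide +kernel) c3_245 (consC g3_246 nilC)

theorem g3_244 : GoodC 8 3 219230344 :=
  goodC (by decide) (by decide) (by decide +kernel) (by decide +kernel) c3_244 (consC g3_245 (consC g3_247 (consC g3_249 (consC g3_250 (consC g3_251 nilC)))))

theorem g3_243 : GoodC 8 3 135997239432 :=
  goodC (by decide) (by decide) (by decide +kernel) (by decide +kernel) c3_243 nilC

theorem g3_242 : GoodC 8 3 93047566472 :=
  goodC (by decide) (by decide) (by decide +kernel) (by decide +kernel) c3_242 nilC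

theorem g3_241 : GoodC 8 3 15738155144 :=
  goodC (by decide) (by decide) (by decide +kernel) (by decide +kernel) c3_241 (consC g3_242 (consC g3_243 nilC))

theorem g3_240 : GoodC 8 3 90900082824 :=
  goodC (by decide) (by decide) (by decide +kernel) (by decide +kernel) c3_240 nilC

theorem g3_239 : GoodC 8 3 13590671496 :=
  goodC (by decide) (by decide) (by decide +kernel) (by decide +kernel) c3_239 (consC g3_240 nilC)

theorem g3_238 : GoodC 8 3 12516929672 :=
  goodC (by decide) (by decide) (by decide +kernel) (by decide +kernel) c3_238 nilC

theorem g3_237 : GoodC 8 3 126065127560 :=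
  goodC (by decide) (by decide) (by decide +kernel) (by decide +kernel) c3_237 nilC

theorem g3_236 : GoodC 8 3 108885258376 :=
  goodC (by decide) (by decide) (by decide +kernel) (by decide +kernel) c3_236 nilC

theorem g3_235 : GoodC 8 3 1511075976 :=
  goodC (by decide) (by decide) (by decide +kernel) (by decide +kernel) c3_235 (consC g3_236 (consC g3_237 nilC))

theorem g3_234 : GoodC 8 3 17903752 :=
  goodC (by decide) (by decide) (by decide +kernel) (by decide +kernel) c3_234 (consC g3_235 (consC g3_238 (consC g3_239 (consC g3_241 (consC g3_244 nilC)))))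

theorem g3_233 : GoodC 8 3 109499691144 :=
  goodC (by decide) (by decide) (by decide +kernel) (by decide +kernel) c3_233 nilC

theorem g3_232 : GoodC 8 3 15010410632 :=
  goodC (by decide) (by decide) (by decide +kernel) (by decide +kernel) c3_232 (consC g3_233 nilC)

theorem g3_231 : GoodC 8 3 125605818504 :=
  goodC (by decide) (by decide) (by decide +kernel) (by decide +kernel) c3_231 nilC

theorem g3_230 : GoodC 8 3 13936668808 :=
  goodC (by decide) (by decide) (by decide +kernel) (by decide +kernel) c3_230 (consC g3_231 nilC)

theorem g3_229 : GoodC 8 3 10715443336 :=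
  goodC (by decide) (by decide) (by decide +kernel) (by decide +kernel) c3_229 nilC

theorem g3_228 : GoodC 8 3 104130982024 :=
  goodC (by decide) (by decide) (by decide +kernel) (by decide +kernel) c3_228 nilC

theorem g3_227 : GoodC 8 3 9641701512 :=
  goodC (by decide) (by decide) (by decide +kernel) (by decide +kernel) c3_227 (consC g3_228 nilC)

theorem g3_226 : GoodC 8 3 2125508744 :=
  goodC (by decide) (by decide) (by decide +kernel) (by decide +kernel) c3_226 (consC g3_227 (consC g3_229 (consC g3_230 (consC g3_232 nilC))))

theorem g3_225 : GoodC 8 3 119834456200 :=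
  goodC (by decide) (by decide) (by decide +kernel) (by decide +kernel) c3_225 nilC

theorem g3_224 : GoodC 8 3 16755241096 :=
  goodC (by decide) (by decide) (by decide +kernel) (by decide +kernel) c3_224 (consC g3_225 nilC)

theorem g3_223 : GoodC 8 3 12460273800 :=
  goodC (by decide) (by decide) (by decide +kernel) (by decide +kernel) c3_223 nilC

theorem g3_222 : GoodC 8 3 113392005256 :=
  goodC (by decide) (by decide) (by decide +kernel) (by decide +kernel) c3_222 nilC

theorem g3_221 : GoodC 8 3 112318263432 :=
  goodC (by decide) (by decide) (by decide +kernel) (by decide +kernel) c3_221 nilC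

theorem g3_220 : GoodC 8 3 9239048328 :=
  goodC (by decide) (by decide) (by decide +kernel) (by decide +kernel) c3_220 (consC g3_221 nilC)

theorem g3_219 : GoodC 8 3 1722855560 :=
  goodC (by decide) (by decide) (by decide +kernel) (by decide +kernel) c3_219 (consC g3_220 (consC g3_222 (consC g3_223 (consC g3_224 nilC))))

theorem g3_218 : GoodC 8 3 16621023368 :=
  goodC (by decide) (by decide) (by decide +kernel) (by decide +kernel) c3_218 nilC

theorem g3_217 : GoodC 8 3 14473539720 :=
  goodC (by decide) (by decide) (by decide +kernel) (by decide +kernel) c3_217 nilC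

theorem g3_216 : GoodC 8 3 129363914888 :=
  goodC (by decide) (by decide) (by decide +kernel) (by decide +kernel) c3_216 nilC

theorem g3_215 : GoodC 8 3 1588637832 :=
  goodC (by decide) (by decide) (by decide +kernel) (by decide +kernel) c3_215 (consC g3_216 (consC g3_217 (consC g3_218 nilC)))

theorem g3_214 : GoodC 8 3 16486805640 :=
  goodC (by decide) (by decide) (by decide +kernel) (by decide +kernel) c3_214 nilC

theorem g3_213 : GoodC 8 3 1454420104 :=
  goodC (by decide) (by decide) (by decide +kernel) (by decide +kernel) c3_213 (consC g3_214 nilC)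

theorem g3_212 : GoodC 8 3 16352587912 :=
  goodC (by decide) (by decide) (by decide +kernel) (by decide +kernel) c3_212 nilC

theorem g3_211 : GoodC 8 3 14205104264 :=
  goodC (by decide) (by decide) (by decide +kernel) (by decide +kernel) c3_211 nilC

theorem g3_210 : GoodC 8 3 129095479432 :=
  goodC (by decide) (by decide) (by decide +kernel) (by decide +kernel) c3_210 nilC

theorem g3_209 : GoodC 8 3 111915610248 :=
  goodC (by decide) (by decide) (by decide +kernel) (by decide +kernel) c3_209 nilC

theorem g3_208 : GoodC 8 3 1320202376 :=
  goodC (by decide) (by decide) (by decide +kernel) (by decide +kernel) c3_208 (consC g3_209 (consC g3_210 (consC g3_211 (consC g3_212 nilC))))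

theorem g3_207 : GoodC 8 3 119297585288 :=
  goodC (by decide) (by decide) (by decide +kernel) (by decide +kernel) c3_207 nilC

theorem g3_206 : GoodC 8 3 16218370184 :=
  goodC (by decide) (by decide) (by decide +kernel) (by decide +kernel) c3_206 (consC g3_207 nilC)

theorem g3_205 : GoodC 8 3 108560167048 :=
  goodC (by decide) (by decide) (by decide +kernel) (by decide +kernel) c3_205 nilC

theorem g3_204 : GoodC 8 3 14070886536 :=
  goodC (by decide) (by decide) (by decide +kernel) (by decide +kernel) c3_204 (consC g3_205 nilC)

theorem g3_203 : GoodC 8 3 98896490632 :=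
  goodC (by decide) (by decide) (by decide +kernel) (by decide +kernel) c3_203 nilC

theorem g3_202 : GoodC 8 3 12997144712 :=
  goodC (by decide) (by decide) (by decide +kernel) (by decide +kernel) c3_202 (consC g3_203 nilC)

theorem g3_201 : GoodC 8 3 16973344904 :=
  goodC (by decide) (by decide) (by decide +kernel) (by decide +kernel) c3_201 nilC

theorem g3_200 : GoodC 8 3 99651465352 :=
  goodC (by decide) (by decide) (by decide +kernel) (by decide +kernel) c3_200 nilC

theorem g3_199 : GoodC 8 3 13752119432 :=
  goodC (by decide) (by decide) (by decide +kernel) (by decide +kernel) c3_199 (consC g3_200 nilC)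

theorem g3_198 : GoodC 8 3 9457152136 :=
  goodC (by decide) (by decide) (by decide +kernel) (by decide +kernel) c3_198 nilC

theorem g3_197 : GoodC 8 3 1940959368 :=
  goodC (by decide) (by decide) (by decide +kernel) (by decide +kernel) c3_197 (consC g3_198 (consC g3_199 (consC g3_201 nilC)))

theorem g3_196 : GoodC 8 3 109583577224 :=
  goodC (by decide) (by decide) (by decide +kernel) (by decide +kernel) c3_196 nilC

theorem g3_195 : GoodC 8 3 15094296712 :=
  goodC (by decide) (by decide) (by decide +kernel) (by decide +kernel) c3_195 (consC g3_196 nilC)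

theorem g3_194 : GoodC 8 3 98846158984 :=
  goodC (by decide) (by decide) (by decide +kernel) (by decide +kernel) c3_194 nilC

theorem g3_193 : GoodC 8 3 196128904 :=
  goodC (by decide) (by decide) (by decide +kernel) (by decide +kernel) c3_193 (consC g3_194 (consC g3_195 (consC g3_197 nilC)))

theorem g3_192 : GoodC 8 3 13735342216 :=
  goodC (by decide) (by decide) (by decide +kernel) (by decide +kernel) c3_192 nilC

theorem g3_191 : GoodC 8 3 10514116744 :=
  goodC (by decide) (by decide) (by decide +kernel) (by decide +kernel) c3_191 nilC

theorem g3_190 : GoodC 8 3 9440374920 :=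
  goodC (by decide) (by decide) (by decide +kernel) (by decide +kernel) c3_190 nilC

theorem g3_189 : GoodC 8 3 179351688 :=
  goodC (by decide) (by decide) (by decide +kernel) (by decide +kernel) c3_189 (consC g3_190 (consC g3_191 (consC g3_192 nilC)))

theorem g3_188 : GoodC 8 3 16939790472 :=
  goodC (by decide) (by decide) (by decide +kernel) (by decide +kernel) c3_188 nilC

theorem g3_187 : GoodC 8 3 14792306824 :=
  goodC (by decide) (by decide) (by decide +kernel) (by decide +kernel) c3_187 nilC

theorem g3_186 : GoodC 8 3 82438041736 :=
  goodC (by decide) (by decide) (by decide +kernel) (by decide +kernel) c3_186 nilC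

theorem g3_185 : GoodC 8 3 13718565000 :=
  goodC (by decide) (by decide) (by decide +kernel) (by decide +kernel) c3_185 (consC g3_186 nilC)

theorem g3_184 : GoodC 8 3 9423597704 :=
  goodC (by decide) (by decide) (by decide +kernel) (by decide +kernel) c3_184 nilC

theorem g3_183 : GoodC 8 3 135319826568 :=
  goodC (by decide) (by decide) (by decide +kernel) (by decide +kernel) c3_183 nilC

theorem g3_182 : GoodC 8 3 109550022792 :=
  goodC (by decide) (by decide) (by decide +kernel) (by decide +kernel) c3_182 nilC

theorem g3_181 : GoodC 8 3 15060742280 :=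
  goodC (by decide) (by decide) (by decide +kernel) (by decide +kernel) c3_181 (consC g3_182 (consC g3_183 nilC))

theorem g3_180 : GoodC 8 3 81632735368 :=
  goodC (by decide) (by decide) (by decide +kernel) (by decide +kernel) c3_180 nilC

theorem g3_179 : GoodC 8 3 12913258632 :=
  goodC (by decide) (by decide) (by decide +kernel) (by decide +kernel) c3_179 (consC g3_180 nilC)

theorem g3_178 : GoodC 8 3 162574472 :=
  goodC (by decide) (by decide) (by decide +kernel) (by decide +kernel) c3_178 (consC g3_179 (consC g3_181 (consC g3_184 (consC g3_185 (consC g3_187 (consC g3_188 nilC))))))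

theorem g3_177 : GoodC 8 3 111412293768 :=
  goodC (by decide) (by decide) (by decide +kernel) (by decide +kernel) c3_177 nilC

theorem g3_176 : GoodC 8 3 16923013256 :=
  goodC (by decide) (by decide) (by decide +kernel) (by decide +kernel) c3_176 (consC g3_177 nilC)

theorem g3_175 : GoodC 8 3 14775529608 :=
  goodC (by decide) (by decide) (by decide +kernel) (by decide +kernel) c3_175 nilC

theorem g3_174 : GoodC 8 3 73831329928 :=
  goodC (by decide) (by decide) (by decide +kernel) (by decide +kernel) c3_174 nilC

theorem g3_173 : GoodC 8 3 13701787784 :=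
  goodC (by decide) (by decide) (by decide +kernel) (by decide +kernel) c3_173 (consC g3_174 nilC)

theorem g3_172 : GoodC 8 3 10480562312 :=
  goodC (by decide) (by decide) (by decide +kernel) (by decide +kernel) c3_172 nilC

theorem g3_171 : GoodC 8 3 1890627720 :=
  goodC (by decide) (by decide) (by decide +kernel) (by decide +kernel) c3_171 (consC g3_172 (consC g3_173 (consC g3_175 (consC g3_176 nilC))))

theorem g3_170 : GoodC 8 3 135839920264 :=
  goodC (by decide) (by decide) (by decide +kernel) (by decide +kernel) c3_170 nilC

theorem g3_169 : GoodC 8 3 118660051080 :=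
  goodC (by decide) (by decide) (by decide +kernel) (by decide +kernel) c3_169 nilC

theorem g3_168 : GoodC 8 3 15580835976 :=
  goodC (by decide) (by decide) (by decide +kernel) (by decide +kernel) c3_168 (consC g3_169 (consC g3_170 nilC))

theorem g3_167 : GoodC 8 3 124028760200 :=
  goodC (by decide) (by decide) (by decide +kernel) (by decide +kernel) c3_167 nilC

theorem g3_166 : GoodC 8 3 10212126856 :=
  goodC (by decide) (by decide) (by decide +kernel) (by decide +kernel) c3_166 nilC

theorem g3_165 : GoodC 8 3 1622192264 :=
  goodC (by decide) (by decide) (by decide +kernel) (by decide +kernel) c3_165 (consC g3_166 (consC g3_167 (consC g3_168 nilC)))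

theorem g3_164 : GoodC 8 3 145797256 :=
  goodC (by decide) (by decide) (by decide +kernel) (by decide +kernel) c3_164 (consC g3_165 (consC g3_171 nilC))

theorem g3_163 : GoodC 8 3 120081920136 :=
  goodC (by decide) (by decide) (by decide +kernel) (by decide +kernel) c3_163 nilC

theorem g3_162 : GoodC 8 3 17002705032 :=
  goodC (by decide) (by decide) (by decide +kernel) (by decide +kernel) c3_162 (consC g3_163 nilC)

theorem g3_161 : GoodC 8 3 13781479560 :=
  goodC (by decide) (by decide) (by decide +kernel) (by decide +kernel) c3_161 nilC

theorem g3_160 : GoodC 8 3 12707737736 :=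
  goodC (by decide) (by decide) (by decide +kernel) (by decide +kernel) c3_160 nilC

theorem g3_159 : GoodC 8 3 9486512264 :=
  goodC (by decide) (by decide) (by decide +kernel) (by decide +kernel) c3_159 nilC

theorem g3_158 : GoodC 8 3 1970319496 :=
  goodC (by decide) (by decide) (by decide +kernel) (by decide +kernel) c3_158 (consC g3_159 (consC g3_160 (consC g3_161 (consC g3_162 nilC))))

theorem g3_157 : GoodC 8 3 15660527752 :=
  goodC (by decide) (by decide) (by decide +kernel) (by decide +kernel) c3_157 nilC

theorem g3_156 : GoodC 8 3 1433448584 :=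
  goodC (by decide) (by decide) (by decide +kernel) (by decide +kernel) c3_156 nilC

theorem g3_155 : GoodC 8 3 15257874568 :=
  goodC (by decide) (by decide) (by decide +kernel) (by decide +kernel) c3_155 nilC

theorem g3_154 : GoodC 8 3 1299230856 :=
  goodC (by decide) (by decide) (by decide +kernel) (by decide +kernel) c3_154 (consC g3_155 nilC)

theorem g3_153 : GoodC 8 3 135382741128 :=
  goodC (by decide) (by decide) (by decide +kernel) (by decide +kernel) c3_153 nilC

theorem g3_152 : GoodC 8 3 15123656840 :=
  goodC (by decide) (by decide) (by decide +kernel) (by decide +kernel) c3_152 (consC g3_153 nilC)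

theorem g3_151 : GoodC 8 3 225489032 :=
  goodC (by decide) (by decide) (by decide +kernel) (by decide +kernel) c3_151 (consC g3_152 (consC g3_154 (consC g3_156 (consC g3_157 (consC g3_158 nilC)))))

theorem g3_150 : GoodC 8 3 135969943688 :=
  goodC (by decide) (by decide) (by decide +kernel) (by decide +kernel) c3_150 nilC

theorem g3_149 : GoodC 8 3 75840401544 :=
  goodC (by decide) (by decide) (by decide +kernel) (by decide +kernel) c3_149 nilC

theorem g3_148 : GoodC 8 3 15710859400 :=
  goodC (by decide) (by decide) (by decide +kernel) (by decide +kernel) c3_148 (consC g3_149 (consC g3_150 nilC))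

theorem g3_147 : GoodC 8 3 73692917896 :=
  goodC (by decide) (by decide) (by decide +kernel) (by decide +kernel) c3_147 nilC

theorem g3_146 : GoodC 8 3 13563375752 :=
  goodC (by decide) (by decide) (by decide +kernel) (by decide +kernel) c3_146 (consC g3_147 nilC)

theorem g3_145 : GoodC 8 3 11415892104 :=
  goodC (by decide) (by decide) (by decide +kernel) (by decide +kernel) c3_145 nilC

theorem g3_144 : GoodC 8 3 125903614088 :=
  goodC (by decide) (by decide) (by decide +kernel) (by decide +kernel) c3_144 nilC

theorem g3_143 : GoodC 8 3 1349562504 :=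
  goodC (by decide) (by decide) (by decide +kernel) (by decide +kernel) c3_143 (consC g3_144 nilC)

theorem g3_142 : GoodC 8 3 24162440 :=
  goodC (by decide) (by decide) (by decide +kernel) (by decide +kernel) c3_142 (consC g3_143 (consC g3_145 (consC g3_146 (consC g3_148 (consC g3_151 nilC)))))

theorem g3_141 : GoodC 8 3 17000607880 :=
  goodC (by decide) (by decide) (by decide +kernel) (by decide +kernel) c3_141 nilC

theorem g3_140 : GoodC 8 3 1968222344 :=
  goodC (by decide) (by decide) (by decide +kernel) (by decide +kernel) c3_140 (consC g3_141 nilC)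

theorem g3_139 : GoodC 8 3 15524212872 :=
  goodC (by decide) (by decide) (by decide +kernel) (by decide +kernel) c3_139 nilC

theorem g3_138 : GoodC 8 3 8813326472 :=
  goodC (by decide) (by decide) (by decide +kernel) (by decide +kernel) c3_138 nilC

theorem g3_137 : GoodC 8 3 1297133704 :=
  goodC (by decide) (by decide) (by decide +kernel) (by decide +kernel) c3_137 (consC g3_138 nilC)

theorem g3_136 : GoodC 8 3 1162915976 :=
  goodC (by decide) (by decide) (by decide +kernel) (by decide +kernel) c3_136 nilC

theorem g3_135 : GoodC 8 3 22065288 :=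
  goodC (by decide) (by decide) (by decide +kernel) (by decide +kernel) c3_135 (consC g3_136 (consC g3_137 (consC g3_139 (consC g3_140 nilC))))

theorem g3_134 : GoodC 8 3 120075628680 :=
  goodC (by decide) (by decide) (by decide +kernel) (by decide +kernel) c3_134 nilC

theorem g3_133 : GoodC 8 3 111485694088 :=
  goodC (by decide) (by decide) (by decide +kernel) (by decide +kernel) c3_133 nilC

theorem g3_132 : GoodC 8 3 16996413576 :=
  goodC (by decide) (by decide) (by decide +kernel) (by decide +kernel) c3_132 (consC g3_133 (consC g3_134 nilC))

theorem g3_131 : GoodC 8 3 116854403208 :=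
  goodC (by decide) (by decide) (by decide +kernel) (by decide +kernel) c3_131 nilC

theorem g3_130 : GoodC 8 3 13775188104 :=
  goodC (by decide) (by decide) (by decide +kernel) (by decide +kernel) c3_130 (consC g3_131 nilC)

theorem g3_129 : GoodC 8 3 11627704456 :=
  goodC (by decide) (by decide) (by decide +kernel) (by decide +kernel) c3_129 nilC

theorem g3_128 : GoodC 8 3 10553962632 :=
  goodC (by decide) (by decide) (by decide +kernel) (by decide +kernel) c3_128 nilC

theorem g3_127 : GoodC 8 3 103969501320 :=
  goodC (by decide) (by decide) (by decide +kernel) (by decide +kernel) c3_127 nilC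

theorem g3_126 : GoodC 8 3 9480220808 :=
  goodC (by decide) (by decide) (by decide +kernel) (by decide +kernel) c3_126 (consC g3_127 nilC)

theorem g3_125 : GoodC 8 3 1964028040 :=
  goodC (by decide) (by decide) (by decide +kernel) (by decide +kernel) c3_125 (consC g3_126 (consC g3_128 (consC g3_129 (consC g3_130 (consC g3_132 nilC)))))

theorem g3_124 : GoodC 8 3 135913320584 :=
  goodC (by decide) (by decide) (by decide +kernel) (by decide +kernel) c3_124 nilC

theorem g3_123 : GoodC 8 3 75783778440 :=
  goodC (by decide) (by decide) (by decide +kernel) (by decide +kernel) c3_123 nilC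

theorem g3_122 : GoodC 8 3 15654236296 :=
  goodC (by decide) (by decide) (by decide +kernel) (by decide +kernel) c3_122 (consC g3_123 (consC g3_124 nilC))

theorem g3_121 : GoodC 8 3 75649560712 :=
  goodC (by decide) (by decide) (by decide +kernel) (by decide +kernel) c3_121 nilC

theorem g3_120 : GoodC 8 3 15520018568 :=
  goodC (by decide) (by decide) (by decide +kernel) (by decide +kernel) c3_120 (consC g3_121 nilC)

theorem g3_119 : GoodC 8 3 120746717320 :=
  goodC (by decide) (by decide) (by decide +kernel) (by decide +kernel) c3_119 nilC

theorem g3_118 : GoodC 8 3 1561374856 :=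
  goodC (by decide) (by decide) (by decide +kernel) (by decide +kernel) c3_118 (consC g3_119 (consC g3_120 nilC))

theorem g3_117 : GoodC 8 3 75515342984 :=
  goodC (by decide) (by decide) (by decide +kernel) (by decide +kernel) c3_117 nilC

theorem g3_116 : GoodC 8 3 1427157128 :=
  goodC (by decide) (by decide) (by decide +kernel) (by decide +kernel) c3_116 (consC g3_117 nilC)

theorem g3_115 : GoodC 8 3 75381125256 :=
  goodC (by decide) (by decide) (by decide +kernel) (by decide +kernel) c3_115 nilC

theorem g3_114 : GoodC 8 3 120478281864 :=
  goodC (by decide) (by decide) (by decide +kernel) (by decide +kernel) c3_114 nilC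

theorem g3_113 : GoodC 8 3 8809132168 :=
  goodC (by decide) (by decide) (by decide +kernel) (by decide +kernel) c3_113 (consC g3_114 nilC)

theorem g3_112 : GoodC 8 3 1292939400 :=
  goodC (by decide) (by decide) (by decide +kernel) (by decide +kernel) c3_112 (consC g3_113 (consC g3_115 nilC))

theorem g3_111 : GoodC 8 3 15738122376 :=
  goodC (by decide) (by decide) (by decide +kernel) (by decide +kernel) c3_111 nilC

theorem g3_110 : GoodC 8 3 13590638728 :=
  goodC (by decide) (by decide) (by decide +kernel) (by decide +kernel) c3_110 nilC

theorem g3_109 : GoodC 8 3 12516896904 :=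
  goodC (by decide) (by decide) (by decide +kernel) (by decide +kernel) c3_109 nilC

theorem g3_108 : GoodC 8 3 168865928 :=
  goodC (by decide) (by decide) (by decide +kernel) (by decide +kernel) c3_108 (consC g3_109 (consC g3_110 (consC g3_111 nilC)))

theorem g3_107 : GoodC 8 3 120082968712 :=
  goodC (by decide) (by decide) (by decide +kernel) (by decide +kernel) c3_107 nilC

theorem g3_106 : GoodC 8 3 111493034120 :=
  goodC (by decide) (by decide) (by decide +kernel) (by decide +kernel) c3_106 nilC

theorem g3_105 : GoodC 8 3 94313164936 :=
  goodC (by decide) (by decide) (by decide +kernel) (by decide +kernel) c3_105 nilC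

theorem g3_104 : GoodC 8 3 77133295752 :=
  goodC (by decide) (by decide) (by decide +kernel) (by decide +kernel) c3_104 nilC

theorem g3_103 : GoodC 8 3 17003753608 :=
  goodC (by decide) (by decide) (by decide +kernel) (by decide +kernel) c3_103 (consC g3_104 (consC g3_105 (consC g3_106 (consC g3_107 nilC))))

theorem g3_102 : GoodC 8 3 134041612424 :=
  goodC (by decide) (by decide) (by decide +kernel) (by decide +kernel) c3_102 nilC

theorem g3_101 : GoodC 8 3 99681874056 :=
  goodC (by decide) (by decide) (by decide +kernel) (by decide +kernel) c3_101 nilC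

theorem g3_100 : GoodC 8 3 73912070280 :=
  goodC (by decide) (by decide) (by decide +kernel) (by decide +kernel) c3_100 nilC

theorem g3_99 : GoodC 8 3 13782528136 :=
  goodC (by decide) (by decide) (by decide +kernel) (by decide +kernel) c3_99 (consC g3_100 (consC g3_101 (consC g3_102 nilC)))

theorem g3_98 : GoodC 8 3 132967870600 :=
  goodC (by decide) (by decide) (by decide +kernel) (by decide +kernel) c3_98 nilC

theorem g3_97 : GoodC 8 3 72838328456 :=
  goodC (by decide) (by decide) (by decide +kernel) (by decide +kernel) c3_97 nilC

theorem g3_96 : GoodC 8 3 12708786312 :=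
  goodC (by decide) (by decide) (by decide +kernel) (by decide +kernel) c3_96 (consC g3_97 (consC g3_98 nilC))

theorem g3_95 : GoodC 8 3 131894128776 :=
  goodC (by decide) (by decide) (by decide +kernel) (by decide +kernel) c3_95 nilC

theorem g3_94 : GoodC 8 3 114714259592 :=
  goodC (by decide) (by decide) (by decide +kernel) (by decide +kernel) c3_94 nilC

theorem g3_93 : GoodC 8 3 10561302664 :=
  goodC (by decide) (by decide) (by decide +kernel) (by decide +kernel) c3_93 nilC

theorem g3_92 : GoodC 8 3 129746645128 :=
  goodC (by decide) (by decide) (by decide +kernel) (by decide +kernel) c3_92 nilC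

theorem g3_91 : GoodC 8 3 86796972168 :=
  goodC (by decide) (by decide) (by decide +kernel) (by decide +kernel) c3_91 nilC

theorem g3_90 : GoodC 8 3 9487560840 :=
  goodC (by decide) (by decide) (by decide +kernel) (by decide +kernel) c3_90 (consC g3_91 (consC g3_92 nilC))

theorem g3_89 : GoodC 8 3 135786442888 :=
  goodC (by decide) (by decide) (by decide +kernel) (by decide +kernel) c3_89 nilC

theorem g3_88 : GoodC 8 3 110016639112 :=
  goodC (by decide) (by decide) (by decide +kernel) (by decide +kernel) c3_88 nilC

theorem g3_87 : GoodC 8 3 75656900744 :=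
  goodC (by decide) (by decide) (by decide +kernel) (by decide +kernel) c3_87 nilC

theorem g3_86 : GoodC 8 3 120754057352 :=
  goodC (by decide) (by decide) (by decide +kernel) (by decide +kernel) c3_86 nilC

theorem g3_85 : GoodC 8 3 1568714888 :=
  goodC (by decide) (by decide) (by decide +kernel) (by decide +kernel) c3_85 (consC g3_86 (consC g3_87 (consC g3_88 (consC g3_89 nilC))))

theorem g3_84 : GoodC 8 3 135652225160 :=
  goodC (by decide) (by decide) (by decide +kernel) (by decide +kernel) c3_84 nilC

theorem g3_83 : GoodC 8 3 118472355976 :=
  goodC (by decide) (by decide) (by decide +kernel) (by decide +kernel) c3_83 nilC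

theorem g3_82 : GoodC 8 3 109882421384 :=
  goodC (by decide) (by decide) (by decide +kernel) (by decide +kernel) c3_82 nilC

theorem g3_81 : GoodC 8 3 15393140872 :=
  goodC (by decide) (by decide) (by decide +kernel) (by decide +kernel) c3_81 (consC g3_82 (consC g3_83 (consC g3_84 nilC)))

theorem g3_80 : GoodC 8 3 949548527752 :=
  goodC (by decide) (by decide) (by decide +kernel) (by decide +kernel) c3_80 nilC

theorem g3_79 : GoodC 8 3 124914806920 :=
  goodC (by decide) (by decide) (by decide +kernel) (by decide +kernel) c3_79 (consC g3_80 nilC)

theorem g3_78 : GoodC 8 3 99145003144 :=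
  goodC (by decide) (by decide) (by decide +kernel) (by decide +kernel) c3_78 nilC

theorem g3_77 : GoodC 8 3 1434497160 :=
  goodC (by decide) (by decide) (by decide +kernel) (by decide +kernel) c3_77 (consC g3_78 (consC g3_79 (consC g3_81 nilC)))

theorem g3_76 : GoodC 8 3 109748203656 :=
  goodC (by decide) (by decide) (by decide +kernel) (by decide +kernel) c3_76 nilC

theorem g3_75 : GoodC 8 3 92568334472 :=
  goodC (by decide) (by decide) (by decide +kernel) (by decide +kernel) c3_75 nilC

theorem g3_74 : GoodC 8 3 1300279432 :=
  goodC (by decide) (by decide) (by decide +kernel) (by decide +kernel) c3_74 (consC g3_75 (consC g3_76 nilC))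

theorem g3_73 : GoodC 8 3 135383789704 :=
  goodC (by decide) (by decide) (by decide +kernel) (by decide +kernel) c3_73 nilC

theorem g3_72 : GoodC 8 3 590650323080 :=
  goodC (by decide) (by decide) (by decide +kernel) (by decide +kernel) c3_72 nilC

theorem g3_71 : GoodC 8 3 109613985928 :=
  goodC (by decide) (by decide) (by decide +kernel) (by decide +kernel) c3_71 (consC g3_72 nilC)

theorem g3_70 : GoodC 8 3 101024051336 :=
  goodC (by decide) (by decide) (by decide +kernel) (by decide +kernel) c3_70 nilC

theorem g3_69 : GoodC 8 3 15124705416 :=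
  goodC (by decide) (by decide) (by decide +kernel) (by decide +kernel) c3_69 (consC g3_70 (consC g3_71 (consC g3_73 nilC)))

theorem g3_68 : GoodC 8 3 878413131912 :=
  goodC (by decide) (by decide) (by decide +kernel) (by decide +kernel) c3_68 nilC

theorem g3_67 : GoodC 8 3 586355355784 :=
  goodC (by decide) (by decide) (by decide +kernel) (by decide +kernel) c3_67 nilC

theorem g3_66 : GoodC 8 3 105319018632 :=
  goodC (by decide) (by decide) (by decide +kernel) (by decide +kernel) c3_66 (consC g3_67 nilC)

theorem g3_65 : GoodC 8 3 1166061704 :=
  goodC (by decide) (by decide) (by decide +kernel) (by decide +kernel) c3_65 (consC g3_66 (consC g3_68 (consC g3_69 nilC)))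

theorem g3_64 : GoodC 8 3 136021323912 :=
  goodC (by decide) (by decide) (by decide +kernel) (by decide +kernel) c3_64 nilC

theorem g3_63 : GoodC 8 3 101661585544 :=
  goodC (by decide) (by decide) (by decide +kernel) (by decide +kernel) c3_63 nilC

theorem g3_62 : GoodC 8 3 75891781768 :=
  goodC (by decide) (by decide) (by decide +kernel) (by decide +kernel) c3_62 nilC

theorem g3_61 : GoodC 8 3 15762239624 :=
  goodC (by decide) (by decide) (by decide +kernel) (by decide +kernel) c3_61 (consC g3_62 (consC g3_63 (consC g3_64 nilC)))

theorem g3_60 : GoodC 8 3 125283905672 :=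
  goodC (by decide) (by decide) (by decide +kernel) (by decide +kernel) c3_60 nilC

theorem g3_59 : GoodC 8 3 13614755976 :=
  goodC (by decide) (by decide) (by decide +kernel) (by decide +kernel) c3_59 (consC g3_60 nilC)

theorem g3_58 : GoodC 8 3 11467272328 :=
  goodC (by decide) (by decide) (by decide +kernel) (by decide +kernel) c3_58 nilC

theorem g3_57 : GoodC 8 3 120988938376 :=
  goodC (by decide) (by decide) (by decide +kernel) (by decide +kernel) c3_57 nilC

theorem g3_56 : GoodC 8 3 1803595912 :=
  goodC (by decide) (by decide) (by decide +kernel) (by decide +kernel) c3_56 (consC g3_57 (consC g3_58 (consC g3_59 (consC g3_61 nilC))))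

theorem g3_55 : GoodC 8 3 1087759233160 :=
  goodC (by decide) (by decide) (by decide +kernel) (by decide +kernel) c3_55 nilC

theorem g3_54 : GoodC 8 3 606722896008 :=
  goodC (by decide) (by decide) (by decide +kernel) (by decide +kernel) c3_54 nilC

theorem g3_53 : GoodC 8 3 125686558856 :=
  goodC (by decide) (by decide) (by decide +kernel) (by decide +kernel) c3_53 (consC g3_54 (consC g3_55 nilC))

theorem g3_52 : GoodC 8 3 589543026824 :=
  goodC (by decide) (by decide) (by decide +kernel) (by decide +kernel) c3_52 nilC

theorem g3_51 : GoodC 8 3 108506689672 :=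
  goodC (by decide) (by decide) (by decide +kernel) (by decide +kernel) c3_51 (consC g3_52 nilC)

theorem g3_50 : GoodC 8 3 91326820488 :=
  goodC (by decide) (by decide) (by decide +kernel) (by decide +kernel) c3_50 nilC

theorem g3_49 : GoodC 8 3 1007228596360 :=
  goodC (by decide) (by decide) (by decide +kernel) (by decide +kernel) c3_49 nilC

theorem g3_48 : GoodC 8 3 10796183688 :=
  goodC (by decide) (by decide) (by decide +kernel) (by decide +kernel) c3_48 (consC g3_49 nilC)

theorem g3_47 : GoodC 8 3 192983176 :=
  goodC (by decide) (by decide) (by decide +kernel) (by decide +kernel) c3_47 (consC g3_48 (consC g3_50 (consC g3_51 (consC g3_53 (consC g3_56 nilC)))))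

theorem g3_46 : GoodC 8 3 136004546696 :=
  goodC (by decide) (by decide) (by decide +kernel) (by decide +kernel) c3_46 nilC

theorem g3_45 : GoodC 8 3 110234742920 :=
  goodC (by decide) (by decide) (by decide +kernel) (by decide +kernel) c3_45 nilC

theorem g3_44 : GoodC 8 3 93054873736 :=
  goodC (by decide) (by decide) (by decide +kernel) (by decide +kernel) c3_44 nilC

theorem g3_43 : GoodC 8 3 15745462408 :=
  goodC (by decide) (by decide) (by decide +kernel) (by decide +kernel) c3_43 (consC g3_44 (consC g3_45 (consC g3_46 nilC)))

theorem g3_42 : GoodC 8 3 13597978760 :=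
  goodC (by decide) (by decide) (by decide +kernel) (by decide +kernel) c3_42 nilC

theorem g3_41 : GoodC 8 3 124193386632 :=
  goodC (by decide) (by decide) (by decide +kernel) (by decide +kernel) c3_41 nilC

theorem g3_40 : GoodC 8 3 86612422792 :=
  goodC (by decide) (by decide) (by decide +kernel) (by decide +kernel) c3_40 nilC

theorem g3_39 : GoodC 8 3 9303011464 :=
  goodC (by decide) (by decide) (by decide +kernel) (by decide +kernel) c3_39 (consC g3_40 nilC)

theorem g3_38 : GoodC 8 3 176205960 :=
  goodC (by decide) (by decide) (by decide +kernel) (by decide +kernel) c3_38 (consC g3_39 (consC g3_41 (consC g3_42 (consC g3_43 nilC))))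

theorem g3_37 : GoodC 8 3 135987769480 :=
  goodC (by decide) (by decide) (by decide +kernel) (by decide +kernel) c3_37 nilC

theorem g3_36 : GoodC 8 3 15728685192 :=
  goodC (by decide) (by decide) (by decide +kernel) (by decide +kernel) c3_36 (consC g3_37 nilC)

theorem g3_35 : GoodC 8 3 72637001864 :=
  goodC (by decide) (by decide) (by decide +kernel) (by decide +kernel) c3_35 nilC

theorem g3_34 : GoodC 8 3 12507459720 :=
  goodC (by decide) (by decide) (by decide +kernel) (by decide +kernel) c3_34 (consC g3_35 nilC)

theorem g3_33 : GoodC 8 3 9286234248 :=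
  goodC (by decide) (by decide) (by decide +kernel) (by decide +kernel) c3_33 nilC

theorem g3_32 : GoodC 8 3 159428744 :=
  goodC (by decide) (by decide) (by decide +kernel) (by decide +kernel) c3_32 (consC g3_33 (consC g3_34 (consC g3_36 nilC)))

theorem g3_31 : GoodC 8 3 960667627656 :=
  goodC (by decide) (by decide) (by decide +kernel) (by decide +kernel) c3_31 nilC

theorem g3_30 : GoodC 8 3 891948150920 :=
  goodC (by decide) (by decide) (by decide +kernel) (by decide +kernel) c3_30 nilC

theorem g3_29 : GoodC 8 3 136033906824 :=
  goodC (by decide) (by decide) (by decide +kernel) (by decide +kernel) c3_29 (consC g3_30 (consC g3_31 nilC))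

theorem g3_28 : GoodC 8 3 1072336777352 :=
  goodC (by decide) (by decide) (by decide +kernel) (by decide +kernel) c3_28 nilC

theorem g3_27 : GoodC 8 3 797458870408 :=
  goodC (by decide) (by decide) (by decide +kernel) (by decide +kernel) c3_27 nilC

theorem g3_26 : GoodC 8 3 110264103048 :=
  goodC (by decide) (by decide) (by decide +kernel) (by decide +kernel) c3_26 (consC g3_27 (consC g3_28 nilC))

theorem g3_25 : GoodC 8 3 926307889288 :=
  goodC (by decide) (by decide) (by decide +kernel) (by decide +kernel) c3_25 nilC

theorem g3_24 : GoodC 8 3 101674168456 :=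
  goodC (by decide) (by decide) (by decide +kernel) (by decide +kernel) c3_24 (consC g3_25 nilC)

theorem g3_23 : GoodC 8 3 84494299272 :=
  goodC (by decide) (by decide) (by decide +kernel) (by decide +kernel) c3_23 nilC

theorem g3_22 : GoodC 8 3 75904364680 :=
  goodC (by decide) (by decide) (by decide +kernel) (by decide +kernel) c3_22 nilC

theorem g3_21 : GoodC 8 3 15774822536 :=
  goodC (by decide) (by decide) (by decide +kernel) (by decide +kernel) c3_21 (consC g3_22 (consC g3_23 (consC g3_24 (consC g3_26 (consC g3_29 nilC)))))

theorem g3_20 : GoodC 8 3 880136990856 :=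
  goodC (by decide) (by decide) (by decide +kernel) (by decide +kernel) c3_20 nilC

theorem g3_19 : GoodC 8 3 124222746760 :=
  goodC (by decide) (by decide) (by decide +kernel) (by decide +kernel) c3_19 (consC g3_20 nilC)

theorem g3_18 : GoodC 8 3 11479855240 :=
  goodC (by decide) (by decide) (by decide +kernel) (by decide +kernel) c3_18 nilC

theorem g3_17 : GoodC 8 3 10406113416 :=
  goodC (by decide) (by decide) (by decide +kernel) (by decide +kernel) c3_17 nilC

theorem g3_16 : GoodC 8 3 9332371592 :=
  goodC (by decide) (by decide) (by decide +kernel) (by decide +kernel) c3_16 nilC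

theorem g3_15 : GoodC 8 3 1088174469256 :=
  goodC (by decide) (by decide) (by decide +kernel) (by decide +kernel) c3_15 nilC

theorem g3_14 : GoodC 8 3 607138132104 :=
  goodC (by decide) (by decide) (by decide +kernel) (by decide +kernel) c3_14 nilC

theorem g3_13 : GoodC 8 3 126101794952 :=
  goodC (by decide) (by decide) (by decide +kernel) (by decide +kernel) c3_13 (consC g3_14 (consC g3_15 nilC))

theorem g3_12 : GoodC 8 3 108921925768 :=
  goodC (by decide) (by decide) (by decide +kernel) (by decide +kernel) c3_12 nilC

theorem g3_11 : GoodC 8 3 74562187400 :=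
  goodC (by decide) (by decide) (by decide +kernel) (by decide +kernel) c3_11 nilC

theorem g3_10 : GoodC 8 3 1005496348808 :=
  goodC (by decide) (by decide) (by decide +kernel) (by decide +kernel) c3_10 nilC

theorem g3_9 : GoodC 8 3 9063936136 :=
  goodC (by decide) (by decide) (by decide +kernel) (by decide +kernel) c3_9 (consC g3_10 nilC)

theorem g3_8 : GoodC 8 3 1547743368 :=
  goodC (by decide) (by decide) (by decide +kernel) (by decide +kernel) c3_8 (consC g3_9 (consC g3_11 (consC g3_12 (consC g3_13 nilC))))

theorem g3_7 : GoodC 8 3 125833359496 :=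
  goodC (by decide) (by decide) (by decide +kernel) (by decide +kernel) c3_7 nilC

theorem g3_6 : GoodC 8 3 100063555720 :=
  goodC (by decide) (by decide) (by decide +kernel) (by decide +kernel) c3_6 nilC

theorem g3_5 : GoodC 8 3 1279307912 :=
  goodC (by decide) (by decide) (by decide +kernel) (by decide +kernel) c3_5 (consC g3_6 (consC g3_7 nilC))

theorem g3_4 : GoodC 8 3 125699141768 :=
  goodC (by decide) (by decide) (by decide +kernel) (by decide +kernel) c3_4 nilC

theorem g3_3 : GoodC 8 3 99929337992 :=
  goodC (by decide) (by decide) (by decide +kernel) (by decide +kernel) c3_3 nilC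

theorem g3_2 : GoodC 8 3 1145090184 :=
  goodC (by decide) (by decide) (by decide +kernel) (by decide +kernel) c3_2 (consC g3_3 (consC g3_4 nilC))

theorem g3_1 : GoodC 8 3 2142344 :=
  goodC (by decide) (by decide) (by decide +kernel) (by decide +kernel) c3_1 (consC g3_2 (consC g3_5 (consC g3_8 (consC g3_16 (consC g3_17 (consC g3_18 (consC g3_19 (consC g3_21 (consC g3_32 (consC g3_38 (consC g3_47 (consC g3_65 (consC g3_74 (consC g3_77 (consC g3_85 (consC g3_90 (consC g3_93 (consC g3_94 (consC g3_95 (consC g3_96 (consC g3_99 (consC g3_103 nilC))))))))))))))))))))))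

theorem g3_0 : GoodC 8 3 307336 :=
  goodC (by decide) (by decide) (by decide +kernel) (by decide +kernel) c3_0 (consC g3_1 (consC g3_108 (consC g3_112 (consC g3_116 (consC g3_118 (consC g3_122 (consC g3_125 (consC g3_135 (consC g3_142 (consC g3_164 (consC g3_178 (consC g3_189 (consC g3_193 (consC g3_202 (consC g3_204 (consC g3_206 (consC g3_208 (consC g3_213 (consC g3_215 (consC g3_219 (consC g3_226 nilC)))))))))))))))))))))

theorem g3_971 : GoodC 8 3 4232 :=
  goodC (by decide) (by decide) (by decide +kernel) (by decide +kernel) c3_971 (consC g3_0 (consC g3_234 (consC g3_255 (consC g3_264 (consC g3_266 (consC g3_267 (consC g3_268 (consC g3_270 (consC g3_274 (consC g3_285 (consC g3_337 nilC)))))))))))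

theorem g4_71 : GoodC 8 4 1742079624 :=
  goodC (by decide) (by decide) (by decide +kernel) (by decide +kernel) c4_71 nilC

theorem g4_70 : GoodC 8 4 1473644168 :=
  goodC (by decide) (by decide) (by decide +kernel) (by decide +kernel) c4_70 nilC

theorem g4_69 : GoodC 8 4 1205208712 :=
  goodC (by decide) (by decide) (by decide +kernel) (by decide +kernel) c4_69 nilC

theorem g4_68 : GoodC 8 4 265684616 :=
  goodC (by decide) (by decide) (by decide +kernel) (by decide +kernel) c4_68 (consC g4_69 (consC g4_70 (consC g4_71 nilC)))

theorem g4_67 : GoodC 8 4 13888784008 :=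
  goodC (by decide) (by decide) (by decide +kernel) (by decide +kernel) c4_67 nilC

theorem g4_66 : GoodC 8 4 2077623944 :=
  goodC (by decide) (by decide) (by decide +kernel) (by decide +kernel) c4_66 (consC g4_67 nilC)

theorem g4_65 : GoodC 8 4 1406535304 :=
  goodC (by decide) (by decide) (by decide +kernel) (by decide +kernel) c4_65 nilC

theorem g4_64 : GoodC 8 4 198575752 :=
  goodC (by decide) (by decide) (by decide +kernel) (by decide +kernel) c4_64 (consC g4_65 (consC g4_66 nilC))

theorem g4_63 : GoodC 8 4 2060846728 :=
  goodC (by decide) (by decide) (by decide +kernel) (by decide +kernel) c4_63 nilC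

theorem g4_62 : GoodC 8 4 1255540360 :=
  goodC (by decide) (by decide) (by decide +kernel) (by decide +kernel) c4_62 nilC

theorem g4_61 : GoodC 8 4 1121322632 :=
  goodC (by decide) (by decide) (by decide +kernel) (by decide +kernel) c4_61 nilC

theorem g4_60 : GoodC 8 4 2044069512 :=
  goodC (by decide) (by decide) (by decide +kernel) (by decide +kernel) c4_60 nilC

theorem g4_59 : GoodC 8 4 165021320 :=
  goodC (by decide) (by decide) (by decide +kernel) (by decide +kernel) c4_59 (consC g4_60 nilC)

theorem g4_58 : GoodC 8 4 2027292296 :=
  goodC (by decide) (by decide) (by decide +kernel) (by decide +kernel) c4_58 nilC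

theorem g4_57 : GoodC 8 4 1490421384 :=
  goodC (by decide) (by decide) (by decide +kernel) (by decide +kernel) c4_57 nilC

theorem g4_56 : GoodC 8 4 148244104 :=
  goodC (by decide) (by decide) (by decide +kernel) (by decide +kernel) c4_56 (consC g4_57 (consC g4_58 nilC))

theorem g4_55 : GoodC 8 4 30803592 :=
  goodC (by decide) (by decide) (by decide +kernel) (by decide +kernel) c4_55 (consC g4_56 (consC g4_59 (consC g4_61 (consC g4_62 (consC g4_63 (consC g4_64 (consC g4_68 nilC)))))))

theorem g4_54 : GoodC 8 4 2121664136 :=
  goodC (by decide) (by decide) (by decide +kernel) (by decide +kernel) c4_54 nilC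

theorem g4_53 : GoodC 8 4 1719010952 :=
  goodC (by decide) (by decide) (by decide +kernel) (by decide +kernel) c4_53 nilC

theorem g4_52 : GoodC 8 4 1450575496 :=
  goodC (by decide) (by decide) (by decide +kernel) (by decide +kernel) c4_52 nilC

theorem g4_51 : GoodC 8 4 1316357768 :=
  goodC (by decide) (by decide) (by decide +kernel) (by decide +kernel) c4_51 nilC

theorem g4_50 : GoodC 8 4 13731497608 :=
  goodC (by decide) (by decide) (by decide +kernel) (by decide +kernel) c4_50 nilC

theorem g4_49 : GoodC 8 4 1920337544 :=
  goodC (by decide) (by decide) (by decide +kernel) (by decide +kernel) c4_49 (consC g4_50 nilC)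

theorem g4_48 : GoodC 8 4 175507080 :=
  goodC (by decide) (by decide) (by decide +kernel) (by decide +kernel) c4_48 (consC g4_49 nilC)

theorem g4_47 : GoodC 8 4 2119566984 :=
  goodC (by decide) (by decide) (by decide +kernel) (by decide +kernel) c4_47 nilC

theorem g4_46 : GoodC 8 4 1716913800 :=
  goodC (by decide) (by decide) (by decide +kernel) (by decide +kernel) c4_46 nilC

theorem g4_45 : GoodC 8 4 1582696072 :=
  goodC (by decide) (by decide) (by decide +kernel) (by decide +kernel) c4_45 nilC

theorem g4_44 : GoodC 8 4 1180042888 :=
  goodC (by decide) (by decide) (by decide +kernel) (by decide +kernel) c4_44 nilC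

theorem g4_43 : GoodC 8 4 1901463176 :=
  goodC (by decide) (by decide) (by decide +kernel) (by decide +kernel) c4_43 nilC

theorem g4_42 : GoodC 8 4 12622104200 :=
  goodC (by decide) (by decide) (by decide +kernel) (by decide +kernel) c4_42 nilC

theorem g4_41 : GoodC 8 4 1884685960 :=
  goodC (by decide) (by decide) (by decide +kernel) (by decide +kernel) c4_41 (consC g4_42 nilC)

theorem g4_40 : GoodC 8 4 13293192840 :=
  goodC (by decide) (by decide) (by decide +kernel) (by decide +kernel) c4_40 nilC

theorem g4_39 : GoodC 8 4 139855496 :=
  goodC (by decide) (by decide) (by decide +kernel) (by decide +kernel) c4_39 (consC g4_40 (consC g4_41 nilC))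

theorem g4_38 : GoodC 8 4 22414984 :=
  goodC (by decide) (by decide) (by decide +kernel) (by decide +kernel) c4_38 (consC g4_39 (consC g4_43 (consC g4_44 (consC g4_45 (consC g4_46 (consC g4_47 nilC))))))

theorem g4_37 : GoodC 8 4 1714816648 :=
  goodC (by decide) (by decide) (by decide +kernel) (by decide +kernel) c4_37 nilC

theorem g4_36 : GoodC 8 4 1580598920 :=
  goodC (by decide) (by decide) (by decide +kernel) (by decide +kernel) c4_36 nilC

theorem g4_35 : GoodC 8 4 1446381192 :=
  goodC (by decide) (by decide) (by decide +kernel) (by decide +kernel) c4_35 nilC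

theorem g4_34 : GoodC 8 4 1177945736 :=
  goodC (by decide) (by decide) (by decide +kernel) (by decide +kernel) c4_34 nilC

theorem g4_33 : GoodC 8 4 238421640 :=
  goodC (by decide) (by decide) (by decide +kernel) (by decide +kernel) c4_33 (consC g4_34 (consC g4_35 (consC g4_36 (consC g4_37 nilC))))

theorem g4_32 : GoodC 8 4 11546265224 :=
  goodC (by decide) (by decide) (by decide +kernel) (by decide +kernel) c4_32 nilC

theorem g4_31 : GoodC 8 4 1882588808 :=
  goodC (by decide) (by decide) (by decide +kernel) (by decide +kernel) c4_31 (consC g4_32 nilC)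

theorem g4_30 : GoodC 8 4 1479935624 :=
  goodC (by decide) (by decide) (by decide +kernel) (by decide +kernel) c4_30 nilC

theorem g4_29 : GoodC 8 4 3540616 :=
  goodC (by decide) (by decide) (by decide +kernel) (by decide +kernel) c4_29 (consC g4_30 (consC g4_31 (consC g4_33 (consC g4_38 (consC g4_48 (consC g4_51 (consC g4_52 (consC g4_53 (consC g4_54 (consC g4_55 nilC))))))))))

theorem g4_28 : GoodC 8 4 2125072008 :=
  goodC (by decide) (by decide) (by decide +kernel) (by decide +kernel) c4_28 nilC

theorem g4_27 : GoodC 8 4 1722418824 :=
  goodC (by decide) (by decide) (by decide +kernel) (by decide +kernel) c4_27 nilC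

theorem g4_26 : GoodC 8 4 1588201096 :=
  goodC (by decide) (by decide) (by decide +kernel) (by decide +kernel) c4_26 nilC

theorem g4_25 : GoodC 8 4 1185547912 :=
  goodC (by decide) (by decide) (by decide +kernel) (by decide +kernel) c4_25 nilC

theorem g4_24 : GoodC 8 4 11604199048 :=
  goodC (by decide) (by decide) (by decide +kernel) (by decide +kernel) c4_24 nilC

theorem g4_23 : GoodC 8 4 195692168 :=
  goodC (by decide) (by decide) (by decide +kernel) (by decide +kernel) c4_23 (consC g4_24 nilC)

theorem g4_22 : GoodC 8 4 11570644616 :=
  goodC (by decide) (by decide) (by decide +kernel) (by decide +kernel) c4_22 nilC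

theorem g4_21 : GoodC 8 4 1906968200 :=
  goodC (by decide) (by decide) (by decide +kernel) (by decide +kernel) c4_21 (consC g4_22 nilC)

theorem g4_20 : GoodC 8 4 162137736 :=
  goodC (by decide) (by decide) (by decide +kernel) (by decide +kernel) c4_20 (consC g4_21 nilC)

theorem g4_19 : GoodC 8 4 16922576520 :=
  goodC (by decide) (by decide) (by decide +kernel) (by decide +kernel) c4_19 nilC

theorem g4_18 : GoodC 8 4 1890190984 :=
  goodC (by decide) (by decide) (by decide +kernel) (by decide +kernel) c4_18 (consC g4_19 nilC)

theorem g4_17 : GoodC 8 4 145360520 :=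
  goodC (by decide) (by decide) (by decide +kernel) (by decide +kernel) c4_17 (consC g4_18 nilC)

theorem g4_16 : GoodC 8 4 1965688456 :=
  goodC (by decide) (by decide) (by decide +kernel) (by decide +kernel) c4_16 nilC

theorem g4_15 : GoodC 8 4 1563035272 :=
  goodC (by decide) (by decide) (by decide +kernel) (by decide +kernel) c4_15 nilC

theorem g4_14 : GoodC 8 4 220857992 :=
  goodC (by decide) (by decide) (by decide +kernel) (by decide +kernel) c4_14 (consC g4_15 (consC g4_16 nilC))

theorem g4_13 : GoodC 8 4 19531400 :=
  goodC (by decide) (by decide) (by decide +kernel) (by decide +kernel) c4_13 (consC g4_14 nilC)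

theorem g4_12 : GoodC 8 4 2754184 :=
  goodC (by decide) (by decide) (by decide +kernel) (by decide +kernel) c4_12 (consC g4_13 (consC g4_17 (consC g4_20 (consC g4_23 (consC g4_25 (consC g4_26 (consC g4_27 (consC g4_28 nilC))))))))

theorem g4_11 : GoodC 8 4 2124809864 :=
  goodC (by decide) (by decide) (by decide +kernel) (by decide +kernel) c4_11 nilC

theorem g4_10 : GoodC 8 4 1722156680 :=
  goodC (by decide) (by decide) (by decide +kernel) (by decide +kernel) c4_10 nilC

theorem g4_9 : GoodC 8 4 1453721224 :=
  goodC (by decide) (by decide) (by decide +kernel) (by decide +kernel) c4_9 nilC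

theorem g4_8 : GoodC 8 4 245761672 :=
  goodC (by decide) (by decide) (by decide +kernel) (by decide +kernel) c4_8 (consC g4_9 (consC g4_10 (consC g4_11 nilC)))

theorem g4_7 : GoodC 8 4 1940260488 :=
  goodC (by decide) (by decide) (by decide +kernel) (by decide +kernel) c4_7 nilC

theorem g4_6 : GoodC 8 4 195430024 :=
  goodC (by decide) (by decide) (by decide +kernel) (by decide +kernel) c4_6 (consC g4_7 nilC)

theorem g4_5 : GoodC 8 4 10513417864 :=
  goodC (by decide) (by decide) (by decide +kernel) (by decide +kernel) c4_5 nilC

theorem g4_4 : GoodC 8 4 1923483272 :=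
  goodC (by decide) (by decide) (by decide +kernel) (by decide +kernel) c4_4 (consC g4_5 nilC)

theorem g4_3 : GoodC 8 4 16922314376 :=
  goodC (by decide) (by decide) (by decide +kernel) (by decide +kernel) c4_3 nilC

theorem g4_2 : GoodC 8 4 1889928840 :=
  goodC (by decide) (by decide) (by decide +kernel) (by decide +kernel) c4_2 (consC g4_3 nilC)

theorem g4_1 : GoodC 8 4 15445919368 :=
  goodC (by decide) (by decide) (by decide +kernel) (by decide +kernel) c4_1 nilC

theorem g4_0 : GoodC 8 4 145098376 :=
  goodC (by decide) (by decide) (by decide +kernel) (by decide +kernel) c4_0 (consC g4_1 (consC g4_2 nilC))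

theorem g4_72 : GoodC 8 4 34440 :=
  goodC (by decide) (by decide) (by decide +kernel) (by decide +kernel) c4_72 (consC g4_0 (consC g4_4 (consC g4_6 (consC g4_8 (consC g4_12 (consC g4_29 nilC))))))

theorem g5_6 : GoodC 8 5 265569928 :=
  goodC (by decide) (by decide) (by decide +kernel) (by decide +kernel) c5_6 nilC

theorem g5_5 : GoodC 8 5 198461064 :=
  goodC (by decide) (by decide) (by decide +kernel) (by decide +kernel) c5_5 nilC

theorem g5_4 : GoodC 8 5 181683848 :=
  goodC (by decide) (by decide) (by decide +kernel) (by decide +kernel) c5_4 nilC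

theorem g5_3 : GoodC 8 5 30688904 :=
  goodC (by decide) (by decide) (by decide +kernel) (by decide +kernel) c5_3 (consC g5_4 (consC g5_5 (consC g5_6 nilC)))

theorem g5_2 : GoodC 8 5 240404104 :=
  goodC (by decide) (by decide) (by decide +kernel) (by decide +kernel) c5_2 nilC

theorem g5_1 : GoodC 8 5 1446266504 :=
  goodC (by decide) (by decide) (by decide +kernel) (by decide +kernel) c5_1 nilC

theorem g5_0 : GoodC 8 5 238306952 :=
  goodC (by decide) (by decide) (by decide +kernel) (by decide +kernel) c5_0 (consC g5_1 nilC)

theorem g5_7 : GoodC 8 5 280200 :=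
  goodC (by decide) (by decide) (by decide +kernel) (by decide +kernel) c5_7 (consC g5_0 (consC g5_2 (consC g5_3 nilC)))

theorem g6_0 : GoodC 8 6 2279048 :=
  goodC (by decide) (by decide) (by decide +kernel) (by decide +kernel) c6_0 nilC

theorem g7_0 : GoodC 8 7 18531976 :=
  goodC (by decide) (by decide) (by decide +kernel) (by decide +kernel) c7_0 nilC

theorem g8_0 : GoodC 8 8 150652552 :=
  goodC (by decide) (by decide) (by decide +kernel) (by decide +kernel) c8_0 nilC

end Pool.Agent.Work.MP_7794fd_co.X.T8
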